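import Pool.Agent.Helper25_CON.Stmts

/-!
Squad CON: basic lemmas on integral forms (structure PD)
-/

noncomputable section

namespace Pool.Agent.CON

open Pool.Agent.H25Cong

namespace PD

variable {M : Type} [AddCommGroup M] {b : M → M → ℤ}

lemma add_right (h : PD b) (x y z : M) : b x (y + z) = b x y + b x z := by
  rw [h.symm, h.add_left, h.symm y, h.symm z]

lemma zero_left (h : PD b) (x : M) : b 0 x = 0 := by
  have := h.add_left 0 0 x
  rw [add_zero] at this
  omega

lemma zero_right (h : PD b) (x : M) : b x 0 = 0 := by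
  rw [h.symm, h.zero_left]

lemma neg_left (h : PD b) (x y : M) : b (-x) y = - b x y := by
  have := h.add_left x (-x) y
  rw [add_neg_cancel, h.zero_left] at this
  omega

lemma neg_right (h : PD b) (x y : M) : b x (-y) = - b x y := by
  rw [h.symm, h.neg_left, h.symm y]

lemma sub_left (h : PD b) (x y z : M) : b (x - y) z = b x z - b y z := by
  rw [sub_eq_add_neg, h.add_left, h.neg_left]; ring

lemma sub_right (h : PD b) (x y z : M) : b x (y - z) = b x y - b x z := by
  rw [sub_eq_add_neg, h.add_right, h.neg_right]; ring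

/-- the form as a homomorphism in the first variable -/
def hom (h : PD b) (y : M) : M →+ ℤ where
  toFun x := b x y
  map_zero' := h.zero_left y
  map_add' x x' := h.add_left x x' y

lemma hom_apply (h : PD b) (x y : M) : h.hom y x = b x y := rfl

lemma zsmul_left (h : PD b) (c : ℤ) (x y : M) : b (c • x) y = c * b x y := by
  have := map_zsmul (h.hom y) c x
  simpa [h.hom_apply] using this

lemma zsmul_right (h : PD b) (c : ℤ) (x y : M) : b x (c • y) = c * b x y := by
  rw [h.symm, h.zsmul_left, h.symm y]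

lemma sum_left (h : PD b) {ι : Type*} (t : Finset ι) (f : ι → M) (y : M) :
    b (∑ i ∈ t, f i) y = ∑ i ∈ t, b (f i) y := by
  have := map_sum (h.hom y) f t
  simpa [h.hom_apply] using this

lemma sum_right (h : PD b) {ι : Type*} (t : Finset ι) (f : ι → M) (y : M) :
    b y (∑ i ∈ t, f i) = ∑ i ∈ t, b y (f i) := by
  rw [h.symm, h.sum_left]
  exact Finset.sum_congr rfl fun i _ => h.symm _ _

lemma nonneg (h : PD b) (x : M) : 0 ≤ b x x := by
  rcases eq_or_ne x 0 with rfl | hx
  · rw [h.zero_left]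
  · exact (h.pos x hx).le

lemma eq_zero (h : PD b) {x : M} (hx : b x x ≤ 0) : x = 0 := by
  by_contra h0
  have := h.pos x h0
  omega

lemma two_dvd (h : PD b) (x : M) : (2 : ℤ) ∣ b x x := by
  obtain ⟨k, hk⟩ := h.even x
  exact ⟨k, hk⟩

/-- torsion freeness -/
lemma zsmul_eq_zero (h : PD b) {c : ℤ} {x : M} (hc : c ≠ 0) (hx : c • x = 0) : x = 0 := by
  apply h.eq_zero
  have : b (c • x) x = 0 := by rw [hx, h.zero_left]
  rw [h.zsmul_left] at this
  rcases mul_eq_zero.mp this with h1 | h1
  · exact absurd h1 hc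
  · omega

/-- Cauchy-Schwarz -/
lemma cs (h : PD b) (x y : M) : b x y ^ 2 ≤ b x x * b y y := by
  rcases eq_or_ne y 0 with rfl | hy
  · rw [h.zero_right, h.zero_right]; simp
  have h1 := h.nonneg (b y y • x - b x y • y)
  have hp := h.pos y hy
  rw [h.sub_left, h.sub_right, h.sub_right, h.zsmul_left, h.zsmul_left, h.zsmul_right,
    h.zsmul_right, h.zsmul_left, h.zsmul_left, h.zsmul_right, h.zsmul_right, h.symm y x] at h1
  have h2 : 0 ≤ b y y * (b x x * b y y - b x y ^ 2) := by linarith [h1]
  have h3 := nonneg_of_mul_nonneg_right h2 hp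
  linarith

/-- the form extended to the subgroup generated by a set -/
lemma closure_dvd (h : PD b) {C : Set M} {y : M} {d : ℤ} (hd : ∀ x ∈ C, d ∣ b x y) :
    ∀ x ∈ AddSubgroup.closure C, d ∣ b x y := by
  intro x hx
  induction hx using AddSubgroup.closure_induction with
  | mem x hx => exact hd x hx
  | zero => rw [h.zero_left]; exact dvd_zero _
  | add x z _ _ hx hz => rw [h.add_left]; exact dvd_add hx hz
  | neg x _ hx => rw [h.neg_left]; exact (dvd_neg).mpr hx

lemma closure_orth (h : PD b) {C D : Set M} (hd : ∀ x ∈ C, ∀ y ∈ D, b x y = 0) :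
    ∀ x ∈ AddSubgroup.closure C, ∀ y ∈ AddSubgroup.closure D, b x y = 0 := by
  have h1 : ∀ x ∈ AddSubgroup.closure C, ∀ y ∈ D, b x y = 0 := by
    intro x hx y hy
    exact zero_dvd_iff.mp (h.closure_dvd (fun z hz => by rw [hd z hz y hy]) x hx)
  intro x hx y hy
  rw [h.symm]
  exact zero_dvd_iff.mp (h.closure_dvd (d := 0)
    (fun z hz => by rw [h.symm, h1 x hx z hz]) y hy)

end PD

/-- the decomposition of a vector into components -/
lemma Comps.decomp {M : Type} [AddCommGroup M] {b : M → M → ℤ} {k : ℕ} {C : Fin k → Set M}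
    {s : Fin k → ℤ} {r : Fin k → ℕ} (hC : Comps b C s r) (y : M) :
    ∃ z : Fin k → M, (∀ i, z i ∈ AddSubgroup.closure (C i)) ∧ y = ∑ i, z i := by
  have hy := hC.gen y
  induction hy using AddSubgroup.closure_induction with
  | mem y hy =>
    classical
    obtain ⟨i, hi⟩ := Set.mem_iUnion.mp hy
    refine ⟨fun l => if l = i then y else 0, fun l => ?_, by simp⟩
    by_cases hl : l = i
    · subst hl; simpa using AddSubgroup.subset_closure hi
    · simp [hl, AddSubgroup.zero_mem]
  | zero => exact ⟨fun _ => 0, fun _ => AddSubgroup.zero_mem _, by simp⟩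
  | add y y' _ _ hy hy' =>
    obtain ⟨z, hz, e⟩ := hy
    obtain ⟨z', hz', e'⟩ := hy'
    exact ⟨fun i => z i + z' i, fun i => AddSubgroup.add_mem _ (hz i) (hz' i), by
      rw [e, e', ← Finset.sum_add_distrib]⟩
  | neg y _ hy =>
    obtain ⟨z, hz, e⟩ := hy
    exact ⟨fun i => - z i, fun i => AddSubgroup.neg_mem _ (hz i), by
      rw [e, ← Finset.sum_neg_distrib]⟩

lemma Comps.orth_closure {M : Type} [AddCommGroup M] {b : M → M → ℤ} (hb : PD b) {k : ℕ}
    {C : Fin k → Set M} {s : Fin k → ℤ} {r : Fin k → ℕ} (hC : Comps b C s r) {i j : Fin k}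
    (hij : i ≠ j) : ∀ x ∈ AddSubgroup.closure (C i), ∀ y ∈ AddSubgroup.closure (C j),
    b x y = 0 :=
  hb.closure_orth fun x hx y hy => hC.orth i j hij x hx y hy

/-- the product of a sum with a vector of one component -/
lemma Comps.sum_comp {M : Type} [AddCommGroup M] {b : M → M → ℤ} (hb : PD b) {k : ℕ}
    {C : Fin k → Set M} {s : Fin k → ℤ} {r : Fin k → ℕ} (hC : Comps b C s r) {z : Fin k → M}
    (hz : ∀ i, z i ∈ AddSubgroup.closure (C i)) {i : Fin k} {y : M}
    (hy : y ∈ AddSubgroup.closure (C i)) : b (∑ l, z l) y = b (z i) y := by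
  rw [hb.sum_left]
  rw [Finset.sum_eq_single i (fun l _ hl => hC.orth_closure hb hl _ (hz l) _ hy)
    (fun h => absurd (Finset.mem_univ _) h)]

/-- the norm of a sum -/
lemma Comps.sum_norm {M : Type} [AddCommGroup M] {b : M → M → ℤ} (hb : PD b) {k : ℕ}
    {C : Fin k → Set M} {s : Fin k → ℤ} {r : Fin k → ℕ} (hC : Comps b C s r) {z : Fin k → M}
    (hz : ∀ i, z i ∈ AddSubgroup.closure (C i)) : b (∑ l, z l) (∑ l, z l) = ∑ i, b (z i) (z i) := by
  rw [hb.sum_right]
  exact Finset.sum_congr rfl fun i _ => hC.sum_comp hb hz (hz i)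

end Pool.Agent.CON

end
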