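import Pool.Agent.Helper25_CON.Stmts

/-!
Squad CON: final assembly
-/

noncomputable section

namespace Pool.Agent.CON

open Pool.Agent.H25Cong

variable {n : ℕ}

lemma refl_S {g : V n ≃ₗ[ℝ] V n} (h : IsReflection g) : ∃ r : V n, 0 < B r r ∧ g = S r := by
  obtain ⟨r, hr, h⟩ := h
  refine ⟨r, hr, LinearEquiv.ext fun x => ?_⟩
  rw [h, S_apply]

lemma gen_isom {Γ : Subgroup (V n ≃ₗ[ℝ] V n)} (hΓ : GenByRefl Γ) : ∀ g ∈ Γ, Isom g := by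
  intro g hg
  rw [hΓ] at hg
  induction hg using Subgroup.closure_induction with
  | mem x hx =>
    obtain ⟨r, _, rfl⟩ := refl_S hx.2
    exact S_isom r
  | one => exact Isom_one
  | mul x y _ _ hx hy => exact hx.mul hy
  | inv x _ hx => exact hx.inv

lemma rat {Γ : Subgroup (V n ≃ₗ[ℝ] V n)} {Λ : Submodule ℤ (V n)} (hΓ : GenByRefl Γ)
    (h : ∀ r : V n, 0 < B r r → S r ∈ Γ → ∃ D : ℕ, 0 < D ∧ ∀ x ∈ Λ, (D : ℝ) • S r x ∈ Λ) :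
    ∀ γ ∈ Γ, ∃ D : ℕ, 0 < D ∧ ∀ x ∈ Λ, (D : ℝ) • γ x ∈ Λ := by
  have key : ∀ γ ∈ Γ, (∃ D : ℕ, 0 < D ∧ ∀ x ∈ Λ, (D : ℝ) • γ x ∈ Λ) ∧
      ∃ D : ℕ, 0 < D ∧ ∀ x ∈ Λ, (D : ℝ) • γ⁻¹ x ∈ Λ := by
    intro g hg
    rw [hΓ] at hg
    have hmul : ∀ x y : V n ≃ₗ[ℝ] V n, (∃ D : ℕ, 0 < D ∧ ∀ z ∈ Λ, (D : ℝ) • x z ∈ Λ) →
        (∃ D : ℕ, 0 < D ∧ ∀ z ∈ Λ, (D : ℝ) • y z ∈ Λ) →
        ∃ D : ℕ, 0 < D ∧ ∀ z ∈ Λ, (D : ℝ) • (x * y) z ∈ Λ := by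
      rintro x y ⟨D, hD, hx⟩ ⟨D', hD', hy⟩
      refine ⟨D * D', Nat.mul_pos hD hD', fun z hz => ?_⟩
      have := hx _ (hy z hz)
      rw [map_smul, smul_smul] at this
      rw [mul_ap]
      push_cast
      exact this
    induction hg using Subgroup.closure_induction with
    | mem x hx =>
      obtain ⟨r, hr, rfl⟩ := refl_S hx.2
      have := h r hr hx.1
      refine ⟨this, ?_⟩
      rw [S_inv]
      exact this
    | one =>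
      have : ∃ D : ℕ, 0 < D ∧ ∀ z ∈ Λ, (D : ℝ) • (1 : V n ≃ₗ[ℝ] V n) z ∈ Λ :=
        ⟨1, one_pos, fun z hz => by simpa using hz⟩
      exact ⟨this, by simpa using this⟩
    | mul x y _ _ hx hy =>
      refine ⟨hmul x y hx.1 hy.1, ?_⟩
      rw [mul_inv_rev]
      exact hmul _ _ hy.2 hx.2
    | inv x _ hx =>
      refine ⟨hx.2, ?_⟩
      rw [inv_inv]
      exact hx.1
  exact fun γ hγ => (key γ hγ).1

theorem fin (h1 : A_ISO) (h2 : A_RAT) (h3 : A_INV) (h4 : A_MIN) (h5 : A_IND) (h6 : A_CNG)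
    (h7 : B_DIV) (h8 : B_TEM) (h9 : C_RTG) (h10 : D_PD) (h11 : D_IND) (h12 : D_RGM)
    (h13 : D_RGN) (h14 : E_THM) (n : ℕ) (hn : 14 ≤ n) (Γ : Subgroup (V n ≃ₗ[ℝ] V n))
    (hΓ : GenByRefl Γ) (Λ : Submodule ℤ (V n)) (N : ℕ) (hΛ : IsIntegralLattice Λ)
    (hiso : ∃ e ∈ Λ, e ≠ 0 ∧ B e e = 0) (hN : 0 < N)
    (hcom : Subgroup.Commensurable Γ (OLat Λ)) (hcong : CongSub Λ N Γ) : False := by
  have hrat := rat hΓ (fun r hr hS => h2 n Λ r (by omega) hr hΛ hiso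
    (fun e he he0 hee => h1 n Γ Λ N (by omega) hΓ hΛ hN hcom hcong (S r) hS e he he0 hee))
  have hinv := h3 n Γ Λ hΓ hΛ hcom hrat
  obtain ⟨L, hL, hLΓ, hLc, hLp⟩ := h4 n Γ Λ hn hinv (gen_isom hΓ)
  have hInd : ∀ p : ℕ, p.Prime → Ind L p 7 := fun p hp => h5 n L p hL hp (hLp p hp)
  obtain ⟨N', hN', hcong'⟩ := h6 n Γ Λ L N hΓ hN hcong hL hLΓ hLc
  have hisoL : ∃ e ∈ L, e ≠ 0 ∧ B e e = 0 := by
    obtain ⟨e, he, he0, hee⟩ := hiso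
    obtain ⟨t, D, ht, hD, h, -⟩ := hLc
    have hD' : (D : ℝ) ≠ 0 := by positivity
    refine ⟨((D : ℝ) * t) • e, h e he, smul_ne_zero (mul_ne_zero hD' ht.ne') he0, ?_⟩
    rw [B_smul_left, B_smul_right, hee]; simp
  have hRG : ∀ e ∈ L, ∀ f ∈ L, B e e = 0 → B f f = 0 → B e f = -1 → RG L e := by
    intro e he f hf hee hff hef
    exact h9 n L e f (by omega) hL he hf hee hef (fun m hm hee' hme =>
      h8 n L N' e f m hL hInd hN' hcong' he hf hee hff hef hm hee' hme)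
  obtain ⟨e, he, f, hf, hee, hff, hef⟩ := h7 n L hL hInd hisoL
  obtain ⟨hpd, hfin, c, hc⟩ := h10 n L e f hL he hf hee hff hef
  have hmod := h11 n L e f 2 5 hL he hf hee hff hef Nat.prime_two (hInd 2 Nat.prime_two)
  have hgen := h12 n L e f hL he hf hee hff hef (hRG e he f hf hee hff hef)
  have hc13 : ∃ c : Fin 13 → Mef L e f, LinearIndependent ℤ c :=
    ⟨fun i => c (Fin.castLE (by omega) i), hc.comp _ (Fin.castLE_injective (by omega))⟩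
  obtain ⟨x, hx, hnx⟩ := h14 (Mef L e f) (bG (Mef L e f)) hpd hgen hc13 hmod
  exact hnx (h13 n L e f hL he hf hee hff hef hRG x hx)

/-- the result -/
theorem final (h1 : A_ISO) (h2 : A_RAT) (h3 : A_INV) (h4 : A_MIN) (h5 : A_IND) (h6 : A_CNG)
    (h7 : B_DIV) (h8 : B_TEM) (h9 : C_RTG) (h10 : D_PD) (h11 : D_IND) (h12 : D_RGM)
    (h13 : D_RGN) (h14 : E_THM) (hU : U_GOD) (n : ℕ) (hn : 14 ≤ n)
    (Γ : Subgroup (V n ≃ₗ[ℝ] V n)) (hΓ : GenByRefl Γ) (hnu : ¬ Uniform Γ) :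
    ¬ IsCongruence Γ := by
  rintro ⟨Λ, N, hΛ, hN, hcom, hcong⟩
  by_cases hiso : ∃ e ∈ Λ, e ≠ 0 ∧ B e e = 0
  · exact fin h1 h2 h3 h4 h5 h6 h7 h8 h9 h10 h11 h12 h13 h14 n hn Γ hΓ Λ N hΛ hiso hN hcom hcong
  · refine hnu (hU n Γ Λ hΛ (fun e he hee => ?_) hcom)
    by_contra h0
    exact hiso ⟨e, he, h0, hee⟩

end Pool.Agent.CON

end
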