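import Pool.Agent.Helper25_CON.PDLem

/-!
Squad CON: module E_NOR (no new roots in the neighbour)
-/

noncomputable section

namespace Pool.Agent.CON.H25

open Pool.Agent.H25Cong Pool.Agent.CON

variable {M : Type} [AddCommGroup M] {b : M → M → ℤ}

/-- the neighbour is not generated by roots if there are no new roots -/
lemma not_RGN (hb : PD b) {x y0 : M} (hx2 : (2 : ℤ) ∣ b x x) (hy0 : ¬ (2 : ℤ) ∣ b x y0)
    (hno : ∀ (y : M) (c : ℤ), (2 : ℤ) ∣ b y x - c → ¬ (2 : ℤ) ∣ c →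
      ((2 : ℤ) • y - c • x ≠ 0 ∧ ∀ t, InN b x t →
        b ((2 : ℤ) • y - c • x) ((2 : ℤ) • y - c • x) ∣ 2 * b ((2 : ℤ) • y - c • x) t) → False) :
    ¬ RGN b x := by
  intro h
  -- the element 2 y0 - c x
  have ht : InN b x ((2 : ℤ) • y0 - (b y0 x) • x) := ⟨y0, b y0 x, rfl, by simp⟩
  have hcl := h _ ht
  -- all roots are in 2 M
  have hsub : AddSubgroup.closure {t : M | InN b x t ∧ t ≠ 0 ∧ ∀ s, InN b x s →
      b t t ∣ 2 * b t s} ≤ (DistribMulAction.toAddMonoidHom M (2 : ℤ)).range := by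
    rw [AddSubgroup.closure_le]
    rintro t ⟨⟨y, c, rfl, hc⟩, ht0, htr⟩
    have hc2 : (2 : ℤ) ∣ c := by
      by_contra hc2
      exact hno y c hc hc2 ⟨ht0, htr⟩
    obtain ⟨d, rfl⟩ := hc2
    refine ⟨y - d • x, ?_⟩
    simp only [DistribMulAction.toAddMonoidHom_apply, smul_sub, mul_smul]
  obtain ⟨z, hz⟩ := hsub hcl
  simp only [DistribMulAction.toAddMonoidHom_apply] at hz
  have h1 : b ((2 : ℤ) • z) y0 = b ((2 : ℤ) • y0 - (b y0 x) • x) y0 := by rw [hz]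
  rw [hb.zsmul_left, hb.sub_left, hb.zsmul_left, hb.zsmul_left] at h1
  have h2 : (2 : ℤ) ∣ b y0 x * b x y0 := ⟨b y0 y0 - b z y0, by linarith⟩
  rw [hb.symm y0 x] at h2
  rcases Int.prime_two.dvd_or_dvd h2 with h3 | h3 <;> exact hy0 h3

theorem e_nor : E_NOR := by
  intro M _ b k C s r x j hb hC hx hj0 hj hsum h4 hodd
  obtain ⟨y0, hy0⟩ := hodd
  -- adjust x
  have hadj : ∃ x' : Fin k → M, (∀ i, ∃ z ∈ AddSubgroup.closure (C i), x' i = x i + (2 : ℤ) • z) ∧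
      (∃ m : ℤ, b (∑ i, x' i) (∑ i, x' i) = 8 * m + 4) := by
    obtain ⟨q, hq⟩ := h4
    rcases Int.even_or_odd q with ⟨q', hq'⟩ | ⟨q', hq'⟩
    · obtain ⟨z, hz, hyz⟩ := hC.decomp y0
      refine ⟨fun i => x i + (2 : ℤ) • z i, fun i => ⟨z i, hz i, rfl⟩, ?_⟩
      have e1 : ∑ i, (x i + (2 : ℤ) • z i) = (∑ i, x i) + (2 : ℤ) • y0 := by
        rw [Finset.sum_add_distrib, ← Finset.smul_sum, ← hyz]
      have ho : ∃ a : ℤ, b (∑ i, x i) y0 = 2 * a + 1 := by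
        have : b (∑ i, x i) y0 % 2 = 1 := by omega
        exact ⟨b (∑ i, x i) y0 / 2, by omega⟩
      obtain ⟨a, ha⟩ := ho
      obtain ⟨c, hc⟩ := hb.even y0
      refine ⟨q' + a + c, ?_⟩
      show b (∑ i, (x i + (2 : ℤ) • z i)) (∑ i, (x i + (2 : ℤ) • z i)) = _
      rw [e1, hb.add_left, hb.add_right, hb.add_right, hb.zsmul_left, hb.zsmul_right,
        hb.zsmul_left, hb.zsmul_right, hb.symm y0 (∑ i, x i), hq, ha, hc, hq']
      ring
    · exact ⟨x, fun i => ⟨0, AddSubgroup.zero_mem _, by simp⟩, ⟨q', by rw [hq, hq']; ring⟩⟩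
  obtain ⟨x', hx', m, hm⟩ := hadj
  have hx'C : ∀ i, x' i ∈ AddSubgroup.closure (C i) := by
    intro i
    obtain ⟨z, hz, e⟩ := hx' i
    rw [e]
    exact AddSubgroup.add_mem _ (hx i) (AddSubgroup.zsmul_mem _ hz 2)
  choose z hz hxz using hx'
  set X : M := ∑ i, x' i with hX
  have hXx : X = (∑ i, x i) + (2 : ℤ) • ∑ i, z i := by
    rw [hX, Finset.smul_sum, ← Finset.sum_add_distrib]
    exact Finset.sum_congr rfl fun i _ => hxz i
  have hXy0 : ¬ (2 : ℤ) ∣ b X y0 := by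
    rw [hXx, hb.add_left, hb.zsmul_left]
    intro h
    exact hy0 ((dvd_add_left (Dvd.intro _ rfl)).mp h)
  refine ⟨X, ⟨m, hm⟩, not_RGN hb (hb.two_dvd X) hXy0 ?_⟩
  rintro y c hyc hc ⟨ht0, htr⟩
  set t : M := (2 : ℤ) • y - c • X with ht
  -- parities
  have hc1 : ∃ a : ℤ, c = 2 * a + 1 := ⟨c / 2, by omega⟩
  obtain ⟨a, ha⟩ := hc1
  have hyX : ∃ d : ℤ, b y X = 2 * d + 1 := by
    obtain ⟨e, he⟩ := hyc
    exact ⟨e + a, by omega⟩
  obtain ⟨d, hd⟩ := hyX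
  obtain ⟨e, he⟩ := hb.even y
  -- the norm of t
  have htt : b t t = 4 * b y y - 4 * c * b y X + c ^ 2 * b X X := by
    rw [ht, hb.sub_left, hb.sub_right, hb.sub_right, hb.zsmul_left, hb.zsmul_left,
      hb.zsmul_right, hb.zsmul_right, hb.zsmul_left, hb.zsmul_left, hb.zsmul_right,
      hb.zsmul_right, hb.symm X y]
    ring
  have hrho : ∃ ρ : ℤ, b t t = 4 * ρ ∧ (2 : ℤ) ∣ ρ := by
    refine ⟨2 * e - c * (2 * d + 1) + c ^ 2 * (2 * m + 1), ?_, ?_⟩
    · rw [htt, he, hd, hm]; ring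
    · rw [ha]
      exact ⟨e - (2 * a + 1) * d - a + (2 * a + 1) ^ 2 * m + (2 * a ^ 2 + 2 * a), by ring⟩
  obtain ⟨ρ, hρ, hρ2⟩ := hrho
  have htpos : 0 < b t t := hb.pos t ht0
  have hρpos : 0 < ρ := by omega
  -- divisibility
  have hdiv : ∀ y' : M, (2 : ℤ) ∣ b X y' → ρ ∣ b t y' := by
    intro y' hy'
    have h1 := htr ((2 : ℤ) • y') ⟨y', 0, by simp, by simpa [hb.symm y' X] using hy'⟩
    rw [hρ, hb.zsmul_right] at h1
    have h2 : 4 * ρ ∣ 4 * b t y' := by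
      have : 2 * (2 * b t y') = 4 * b t y' := by ring
      rwa [this] at h1
    exact (mul_dvd_mul_iff_left (by norm_num : (4 : ℤ) ≠ 0)).mp h2
  have hρ4 : ρ % 4 = 2 := by
    have h1 := hdiv ((2 : ℤ) • y0) (by rw [hb.zsmul_right]; exact Dvd.intro _ rfl)
    rw [hb.zsmul_right] at h1
    have h2 : ¬ (2 : ℤ) ∣ b t y0 := by
      rw [ht, hb.sub_left, hb.zsmul_left, hb.zsmul_left]
      intro h
      have h3 : (2 : ℤ) ∣ c * b X y0 := by
        have := (dvd_sub_right (Dvd.intro (b y y0) rfl : (2 : ℤ) ∣ 2 * b y y0)).mp h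
        exact this
      rcases Int.prime_two.dvd_or_dvd h3 with h4 | h4
      · exact hc h4
      · exact hXy0 h4
    obtain ⟨u, hu⟩ := hρ2
    by_contra h3
    have h5 : (2 : ℤ) ∣ u := by omega
    obtain ⟨w, hw⟩ := h5
    have h6 : (4 : ℤ) ∣ 2 * b t y0 := dvd_trans ⟨w, by rw [hu, hw]; ring⟩ h1
    apply h2
    omega
  -- the components of t
  obtain ⟨w, hw, hyw⟩ := hC.decomp (y - (a + 1) • X)
  have htw : t = ∑ i, (x' i + (2 : ℤ) • w i) := by
    rw [Finset.sum_add_distrib, ← Finset.smul_sum, ← hyw, ← hX, ht, ha, smul_sub, add_smul,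
      add_smul, smul_add, mul_smul, one_smul]
    module
  have htC : ∀ i, x' i + (2 : ℤ) • w i ∈ AddSubgroup.closure (C i) := fun i =>
    AddSubgroup.add_mem _ (hx'C i) (AddSubgroup.zsmul_mem _ (hw i) 2)
  have hnorm : b t t = ∑ i, b (x' i + (2 : ℤ) • w i) (x' i + (2 : ℤ) • w i) := by
    rw [htw]
    exact hC.sum_norm hb htC
  have hge : ∀ i, j i * ρ ≤ b (x' i + (2 : ℤ) • w i) (x' i + (2 : ℤ) • w i) := by
    intro i
    by_cases hji : j i = 0
    · rw [hji, zero_mul]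
      exact hb.nonneg _
    · have h1 := hj i hji (z i + w i) (AddSubgroup.add_mem _ (hz i) (hw i)) ρ hρpos hρ4
      have e1 : x i + (2 : ℤ) • (z i + w i) = x' i + (2 : ℤ) • w i := by
        rw [hxz i, smul_add]
        abel
      rw [e1] at h1
      apply h1
      intro y' hy' hxy'
      have e2 : b t y' = b (x' i + (2 : ℤ) • w i) y' := by
        rw [htw]
        exact hC.sum_comp hb htC hy'
      have e3 : b X y' = b (x' i) y' := hC.sum_comp hb hx'C hy'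
      rw [← e2]
      apply hdiv
      rw [e3, hxz i, hb.add_left, hb.zsmul_left]
      exact dvd_add hxy' (Dvd.intro _ rfl)
  have h5 : (∑ i, j i) * ρ ≤ b t t := by
    rw [hnorm, Finset.sum_mul]
    exact Finset.sum_le_sum fun i _ => hge i
  have h6 : 5 * ρ ≤ (∑ i, j i) * ρ := mul_le_mul_of_nonneg_right hsum hρpos.le
  omega

end Pool.Agent.CON.H25

end
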