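import Pool.Agent.Helper25_CON.Stmts

/-!
Squad CON: assembly of E_THM from the modules H
-/

noncomputable section

namespace Pool.Agent.CON

open Pool.Agent.H25Cong

theorem e_thm (hS : E_SHO) (hCo : E_COM) (hRk : E_RNK) (hG : H_GRP) (hCap : H_CAP) (hHA : H_A)
    (hHB : H_B) (hHC : H_C) (hHI : H_I) : E_THM := by
  intro M _ _ b hb hgen h13 hind
  obtain ⟨R, hR⟩ := hS M b hb hgen
  obtain ⟨k, C, s, r, hC⟩ := hCo M b R hb hR
  have hr : 13 ≤ ∑ i, r i := hRk M b k 13 C s r hb hC h13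
  obtain ⟨hc1, hc2⟩ := hCap M b k C s r hb hC
  by_contra hbad
  -- at most one big component
  have hB1 : ∀ i j, Bg b (C i) (s i) → Bg b (C j) (s j) → i = j := by
    intro i j hi hj
    by_contra hij
    exact hbad (hG M b k C s r {i} {j} hb hC (by simpa using hij) (hc1 i hi) (hc1 j hj))
  have hBM : ∀ i j l, Bg b (C i) (s i) → Md b (C j) (s j) (r j) → ¬ (2 : ℤ) ∣ s l → i ≠ j →
      i ≠ l → j ≠ l → False := by
    intro i j l hi hj hl hij hil hjl
    exact hbad (hG M b k C s r {i} {j, l} hb hC (by simp [hij, hil]) (hc1 i hi)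
      (hc2 j l hjl hj hl))
  have hMM : ∀ i j l t, Md b (C i) (s i) (r i) → ¬ (2 : ℤ) ∣ s j → Md b (C l) (s l) (r l) →
      ¬ (2 : ℤ) ∣ s t → i ≠ j → i ≠ l → i ≠ t → j ≠ l → j ≠ t → l ≠ t → False := by
    intro i j l t hi hj hl ht hij hil hit hjl hjt hlt
    exact hbad (hG M b k C s r {i, j} {l, t} hb hC (by
        simp [Ne.symm hil, Ne.symm hit, Ne.symm hjl, Ne.symm hjt])
      (hc2 i j hij hi hj) (hc2 l t hlt hl ht))
  have hcase : ∀ i, (2 : ℤ) ∣ s i ∨ Bg b (C i) (s i) ∨ Md b (C i) (s i) (r i) ∨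
      Sm b (C i) (s i) (r i) := by
    intro i
    by_cases h1 : (2 : ℤ) ∣ s i
    · exact Or.inl h1
    by_cases h2 : Cap b (C i)
    · exact Or.inr (Or.inl ⟨h1, h2⟩)
    rcases Nat.lt_or_ge (r i) 2 with h3 | h3
    · exact Or.inr (Or.inr (Or.inr ⟨h1, h2, by omega⟩))
    · exact Or.inr (Or.inr (Or.inl ⟨h1, h2, h3⟩))
  have hBgMd : ∀ i, Bg b (C i) (s i) → ¬ Md b (C i) (s i) (r i) := fun i h h' => h'.2.1 h.2
  by_cases hbig : ∃ i, Bg b (C i) (s i)
  · obtain ⟨i0, hi0⟩ := hbig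
    by_cases hmid : ∃ i, Md b (C i) (s i) (r i)
    · obtain ⟨i1, hi1⟩ := hmid
      have h01 : i0 ≠ i1 := by
        rintro rfl
        exact hBgMd _ hi0 hi1
      refine hbad (hHB M b k C s r i0 i1 hb hC hr h01 hi0 hi1 ?_)
      intro i hi0' hi1'
      by_contra h2
      exact hBM i0 i1 i hi0 hi1 h2 h01 (Ne.symm hi0') (Ne.symm hi1')
    · push Not at hmid
      refine hbad (hHA M b k C s r i0 hb hC hr hi0 ?_)
      intro i hi
      rcases hcase i with h | h | h | h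
      · exact Or.inr h
      · exact absurd (hB1 i i0 h hi0) hi
      · exact absurd h (hmid i)
      · exact Or.inl h
  · push Not at hbig
    by_cases h3 : ∃ i1 i2 i3, i1 ≠ i2 ∧ i1 ≠ i3 ∧ i2 ≠ i3 ∧ Md b (C i1) (s i1) (r i1) ∧
        Md b (C i2) (s i2) (r i2) ∧ Md b (C i3) (s i3) (r i3)
    · obtain ⟨i1, i2, i3, h12, h13', h23, hi1, hi2, hi3⟩ := h3
      refine hbad (hHC M b k C s r i1 i2 i3 hb hC hr h12 h13' h23 hi1 hi2 hi3 ?_)
      intro i hn1 hn2 hn3
      by_contra h2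
      exact hMM i1 i2 i3 i hi1 hi2.1 hi3 h2 h12 h13' (Ne.symm hn1) h23 (Ne.symm hn2)
        (Ne.symm hn3)
    · -- at most two middle components
      have hk : 0 < k := by
        rcases Nat.eq_zero_or_pos k with h | h
        · subst h
          simp at hr
        · exact h
      have h2 : ∃ i1 i2 : Fin k, ∀ i, i ≠ i1 → i ≠ i2 → ¬ Md b (C i) (s i) (r i) := by
        by_cases hm1 : ∃ i1, Md b (C i1) (s i1) (r i1)
        · obtain ⟨i1, hi1⟩ := hm1
          by_cases hm2 : ∃ i2, i2 ≠ i1 ∧ Md b (C i2) (s i2) (r i2)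
          · obtain ⟨i2, h21, hi2⟩ := hm2
            refine ⟨i1, i2, fun i hn1 hn2 hmi => h3 ⟨i1, i2, i, Ne.symm h21, Ne.symm hn1,
              Ne.symm hn2, hi1, hi2, hmi⟩⟩
          · push Not at hm2
            exact ⟨i1, i1, fun i hn1 _ => hm2 i hn1⟩
        · push Not at hm1
          exact ⟨⟨0, hk⟩, ⟨0, hk⟩, fun i _ _ => hm1 i⟩
      obtain ⟨i1, i2, h⟩ := h2
      exact hHI M b k C s r i1 i2 hb hC hbig h hind

end Pool.Agent.CON

end
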