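import Pool.Agent.Helper25_CON.PDLem

/-!
Squad CON: module E_J2
-/

noncomputable section

namespace Pool.Agent.CON.H25

open Pool.Agent.H25Cong Pool.Agent.CON

theorem e_j2 : E_J2 := by
  intro M _ b C x hb hx hN h4 z hz ρ hρ hρ4 hd
  set t := x + (2 : ℤ) • z with ht
  have htC : t ∈ AddSubgroup.closure C := AddSubgroup.add_mem _ hx (AddSubgroup.zsmul_mem _ hz 2)
  have h1 : ρ ∣ b t t := by
    apply hd t htC
    rw [ht, hb.add_right, hb.zsmul_right]
    exact dvd_add (hb.two_dvd x) (Dvd.intro _ rfl)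
  have ht0 : t ≠ 0 := by
    intro h0
    apply hN (-z) (AddSubgroup.neg_mem _ hz)
    rw [smul_neg]
    exact eq_neg_of_add_eq_zero_left h0
  have hpos := hb.pos t ht0
  have h2 : (4 : ℤ) ∣ b t t := by
    obtain ⟨a, ha⟩ := h4
    refine ⟨a + b x z + b z z, ?_⟩
    rw [ht, hb.add_left, hb.add_right, hb.add_right, hb.zsmul_left, hb.zsmul_right,
      hb.zsmul_left, hb.zsmul_right, hb.symm z x, ha]
    ring
  have h3 : 2 * ρ ∣ b t t := by
    obtain ⟨u, hu⟩ := h1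
    have hodd : ∃ w : ℤ, ρ = 2 * (2 * w + 1) := ⟨ρ / 4, by omega⟩
    obtain ⟨w, hw⟩ := hodd
    have h5 : (2 : ℤ) ∣ (2 * w + 1) * u := by
      obtain ⟨v, hv⟩ := h2
      refine ⟨v, ?_⟩
      have : 2 * ((2 * w + 1) * u) = 2 * (2 * v) := by
        rw [← mul_assoc, ← hw, ← hu, hv]; ring
      linarith
    rcases Int.prime_two.dvd_or_dvd h5 with h6 | ⟨u', hu'⟩
    · omega
    · exact ⟨u', by rw [hu, hu']; ring⟩
  exact Int.le_of_dvd hpos h3

end Pool.Agent.CON.H25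

end
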