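import Pool.Agent.Helper25_CON.PDLem

/-!
Squad CON: module G_EXT (extension of an orthogonal frame)
-/

noncomputable section

namespace Pool.Agent.CON.H25

open Pool.Agent.H25Cong Pool.Agent.CON

variable {M : Type} [AddCommGroup M] {b : M → M → ℤ} {C : Set M} {s : ℤ}

lemma Irr_neg (hC : Irr b C s) {α : M} (hα : α ∈ C) : -α ∈ C := by
  have h1 := hC.refl α hα α hα 2 (by rw [hC.norm α hα])
  have e : α - (2 : ℤ) • α = -α := by module
  rwa [e] at h1

/-- subtraction of a root with product s -/
lemma Irr_sub (hC : Irr b C s) {α w : M} (hα : α ∈ C) (hw : w ∈ C) (h : b w α = s) :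
    α - w ∈ C := by
  have h1 := hC.refl w hw α hα 1 (by rw [h]; ring)
  rwa [one_smul] at h1

theorem g_ext : G_EXT := by
  intro M _ b C s k F α i0 hb hC hk hF hα hαi hαj
  -- reduction to the sign +
  have key : ∀ α : M, α ∈ C → b α (F i0) = 2 * s → (∀ j, j ≠ i0 → b α (F j) = 0) →
      ∃ F' : Fin (k + 1) → M, DFr b C s (k + 1) F' := by
    intro α hα hαi hαj
    obtain ⟨hF1, hF2, hF3⟩ := hF
    set G : M := (2 : ℤ) • α - F i0 with hG
    have hGG : b G G = 4 * s := by
      rw [hG, hb.sub_left, hb.sub_right, hb.sub_right, hb.zsmul_left, hb.zsmul_right,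
        hb.zsmul_left, hb.zsmul_right, hb.symm (F i0) α, hαi, hF1, hC.norm α hα]
      ring
    have hGF : ∀ j, b G (F j) = 0 := by
      intro j
      rw [hG, hb.sub_left, hb.zsmul_left]
      by_cases hj : j = i0
      · rw [hj, hαi, hF1]; ring
      · rw [hαj j hj, hF2 i0 j (Ne.symm hj)]; ring
    -- halves with j ≠ i0
    have hhalf : ∀ j, j ≠ i0 → (∃ w ∈ C, (2 : ℤ) • w = G + F j) ∧
        (∃ w ∈ C, (2 : ℤ) • w = G - F j) ∧ α - F i0 ∈ C := by
      intro j hj
      obtain ⟨⟨w, hw, ew⟩, ⟨w', hw', ew'⟩⟩ := hF3 i0 j (Ne.symm hj)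
      have hbw : b α w = s := by
        have : b α ((2 : ℤ) • w) = 2 * s := by rw [ew, hb.add_right, hαi, hαj j hj]; ring
        rw [hb.zsmul_right] at this
        omega
      have hbw' : b α w' = s := by
        have : b α ((2 : ℤ) • w') = 2 * s := by rw [ew', hb.sub_right, hαi, hαj j hj]; ring
        rw [hb.zsmul_right] at this
        omega
      have hww : b w w' = 0 := by
        have : b ((2 : ℤ) • w) ((2 : ℤ) • w') = 0 := by
          rw [ew, ew', hb.add_left, hb.sub_right, hb.sub_right, hF1, hF1, hF2 i0 j (Ne.symm hj),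
            hF2 j i0 hj]
          ring
        rw [hb.zsmul_left, hb.zsmul_right] at this
        omega
      have h1 : α - w ∈ C := Irr_sub hC hα hw (by rw [hb.symm, hbw])
      have h1' : α - w' ∈ C := Irr_sub hC hα hw' (by rw [hb.symm, hbw'])
      refine ⟨⟨α - w', h1', ?_⟩, ⟨α - w, h1, ?_⟩, ?_⟩
      · rw [smul_sub, ew', hG]; abel
      · rw [smul_sub, ew, hG]; abel
      · have h2 : α - w - w' ∈ C := Irr_sub hC h1 hw' (by
          rw [hb.symm, hb.sub_left, hbw', hww]; ring)
        have e : α - w - w' = α - F i0 := by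
          have h3 : (2 : ℤ) • (w + w' - F i0) = 0 := by
            rw [smul_sub, smul_add, ew, ew']
            module
          have h4 := hb.zsmul_eq_zero (by norm_num) h3
          rw [sub_eq_zero] at h4
          rw [← h4]; abel
        rwa [e] at h2
    have hex : ∃ j : Fin k, j ≠ i0 := by
      have : Nontrivial (Fin k) := Fin.nontrivial_iff_two_le.mpr hk
      exact exists_ne i0
    obtain ⟨j0, hj0⟩ := hex
    have hall : ∀ j, (∃ w ∈ C, (2 : ℤ) • w = G + F j) ∧ (∃ w ∈ C, (2 : ℤ) • w = G - F j) := by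
      intro j
      by_cases hj : j = i0
      · rw [hj]
        refine ⟨⟨α, hα, by rw [hG]; abel⟩, ⟨α - F i0, (hhalf j0 hj0).2.2, ?_⟩⟩
        rw [hG]
        module
      · exact ⟨(hhalf j hj).1, (hhalf j hj).2.1⟩
    refine ⟨Fin.cons G F, ?_, ?_, ?_⟩
    · intro i
      refine Fin.cases ?_ (fun i => ?_) i
      · simpa using hGG
      · simpa using hF1 i
    · intro i j
      refine Fin.cases ?_ (fun i => ?_) i <;> refine Fin.cases ?_ (fun j => ?_) j
      · intro h; exact absurd rfl h
      · intro _; simpa using hGF j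
      · intro _
        simp only [Fin.cons_succ, Fin.cons_zero]
        rw [hb.symm]
        exact hGF i
      · intro h
        simp only [Fin.cons_succ]
        exact hF2 i j (fun h' => h (by rw [h']))
    · intro i j
      refine Fin.cases ?_ (fun i => ?_) i <;> refine Fin.cases ?_ (fun j => ?_) j
      · intro h; exact absurd rfl h
      · intro _; simpa using hall j
      · intro _
        simp only [Fin.cons_succ, Fin.cons_zero]
        obtain ⟨⟨w, hw, ew⟩, ⟨w', hw', ew'⟩⟩ := hall i
        exact ⟨⟨w, hw, by rw [ew]; abel⟩, ⟨-w', Irr_neg hC hw', by rw [smul_neg, ew']; abel⟩⟩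
      · intro h
        simp only [Fin.cons_succ]
        exact hF3 i j (fun h' => h (by rw [h']))
  rcases hαi with h | h
  · exact key α hα h hαj
  · refine key (-α) (Irr_neg hC hα) ?_ ?_
    · rw [hb.neg_left, h]; ring
    · intro j hj
      rw [hb.neg_left, hαj j hj]; ring

end Pool.Agent.CON.H25

end
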