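import Pool.Agent.Helper25_CON.AsmBig
import Pool.Agent.Helper25_CON.AsmThm
import Pool.Agent.Helper25_CON.AsmFin
import Pool.Agent.Helper25_CON.ENor
import Pool.Agent.Helper25_CON.EJ2
import Pool.Agent.Helper25_CON.GExt
import Pool.Agent.Helper39_CON.Cng
import Pool.Agent.Helper39_CON.Rnk
import Pool.Agent.Helper58_CON.ACov
import Pool.Agent.Helper58_CON.AMin
import Pool.Agent.Helper50_CON.AInd
import Pool.Agent.Helper63_CON.Spn
import Pool.Agent.Helper63_CON.Rat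
import Pool.Agent.Helper70_CON.HenSpn
import Pool.Agent.Helper97_CON.Ker
import Pool.Agent.Helper21_CON.Btrn
import Pool.Agent.Helper21_CON.Cinv
import Pool.Agent.Helper36_CON.Bdd
import Pool.Agent.Helper36_CON.EJ1
import Pool.Agent.Helper94_CON.Hor
import Pool.Agent.Helper81_CON.COff
import Pool.Agent.Helper81_CON.CSys
import Pool.Agent.Helper48_CON.DIND
import Pool.Agent.Helper48_CON.DPD
import Pool.Agent.Helper93_CON.Rgm
import Pool.Agent.Helper93_CON.Rgn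
import Pool.Agent.Helper90_CON.EN2
import Pool.Agent.Helper47_CON.Non
import Pool.Agent.Helper47_CON.Cap
import Pool.Agent.Helper6_CON.GFlp
import Pool.Agent.Helper27_CON.ETwo
import Pool.Agent.Helper40_CON.Two
import Pool.Agent.Helper40_CON.HC
import Pool.Agent.Helper99_CON.EVal
import Pool.Agent.Helper34_CON.GA
import Pool.Agent.Helper34_CON.GH7
import Pool.Agent.Helper4_CON.GCla
import Pool.Agent.Helper4_CON.UGod
import Pool.Agent.Helper13_CON.GCld
import Pool.Agent.Helper17_CON.GH4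
import Pool.Agent.Helper60_CON.GH5
import Pool.Agent.Helper60_CON.HB
import Pool.Agent.Helper33_CON.GH6
import Pool.Agent.Helper33_CON.GTyp
import Pool.Agent.Helper24_CON.GH8
import Pool.Agent.Helper24_CON.HGrp
import Pool.Agent.Helper9_CON.GRk
import Pool.Agent.Helper56_CON.HA
import Pool.Agent.Helper56_CON.URed
import Pool.Agent.Helper65_CON.HI
import Pool.Agent.Helper31_CON.Inv
import Pool.Agent.Helper94_CON.Iso
import Pool.Agent.Helper13_CON.BDiv
import Pool.Agent.Helper97_CON.Hyp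
import Pool.Agent.Helper27_CON.BTem
import Pool.Agent.Helper99_CON.BCmp
import Pool.Agent.Helper88_CON.ECap
import Pool.Agent.Helper13_CON.ECom
import Pool.Agent.Helper19_CON.EJ4
import Pool.Agent.Helper21_CON.Esho
import Pool.Agent.Helper66_CON.GD

/-!
Squad CON: all the modules, discharged
-/

noncomputable section

namespace Pool.Agent.CON

open Pool.Agent.H25Cong

theorem pA_SUB : A_SUB := H31.a_sub

theorem pA_COV : A_COV := H58.a_cov

theorem pA_IND : A_IND := H50.a_IND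

theorem pA_REF : A_REF := H50.a_REF

theorem pA_INV : A_INV := H31.a_inv pA_SUB

theorem pA_ISO : A_ISO := H94.a_ISO

theorem pA_MIN : A_MIN := H58.a_min pA_SUB pA_COV

theorem pA_SPN : A_SPN := H63.a_spn

theorem pA_RAT : A_RAT := H63.a_rat pA_SPN

theorem pA_CNG : A_CNG := H39.a_CNG pA_REF

theorem pB_HYP : B_HYP := H97h.b_hyp

theorem pB_CMP : B_CMP := H99.b_cmp

theorem pB_KER : B_KER := H97.b_ker

theorem pB_HEN : B_HEN := H70.b_HEN

theorem pB_SPN : B_SPN := H70.b_SPN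

theorem pB_DIV : B_DIV := H13.b_div pB_HYP pB_KER pB_HEN

theorem pB_TRN : B_TRN := H21.b_TRN

theorem pD_IND : D_IND := H48.d_ind

theorem pB_TEM : B_TEM := H27.b_tem pB_HYP pB_CMP pB_HEN pB_SPN pB_TRN pD_IND

theorem pC_BDD : C_BDD := H36.c_bdd

theorem pC_HOR : C_HOR := H94.c_HOR

theorem pC_INV : C_INV := H21.c_INV

theorem pC_OFF : C_OFF := H81.c_off

theorem pC_SYS : C_SYS := H81.c_sys pC_BDD

theorem pC_RTG : C_RTG := H94.c_RTG pC_INV pC_BDD pC_SYS pC_OFF pC_HOR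

theorem pD_PD : D_PD := H48.d_pd

theorem pD_RGM : D_RGM := H93.rgm

theorem pD_RGN : D_RGN := H93.rgn

theorem pE_NON : E_NON := H47.e_non

theorem pE_CAP : E_CAP := H88.e_cap

theorem pE_COM : E_COM := H13.e_com

theorem pE_J1 : E_J1 := H36.e_j1

theorem pE_J2 : E_J2 := H25.e_j2

theorem pE_VAL : E_VAL := H99.e_val

theorem pE_N2 : E_N2 := H90.e_n2 pE_VAL

theorem pE_J4 : E_J4 := H19.e_J4 pE_VAL pE_N2

theorem pE_NOR : E_NOR := H25.e_nor

theorem pE_ORT : E_ORT := H6.eORT pE_NON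

theorem pE_RNK : E_RNK := H39.e_RNK

theorem pE_SHO : E_SHO := H21.e_sho

theorem pE_TWO : E_TWO := H27.e_two

theorem pE_TWO2 : E_TWO2 := H40.e_two2 pE_NON

theorem pG_EXT : G_EXT := H25.g_ext

theorem pG_TYP : G_TYP := H33.g_typ

theorem pG_FLP : G_FLP := H6.gFLP

theorem pG_HALF4 : G_HALF 4 := H17.g_h4 pG_EXT pG_TYP pG_FLP

theorem pG_HALF5 : G_HALF 5 := H60.g_h5 pG_EXT pG_TYP pG_FLP

theorem pG_HALF6 : G_HALF 6 := H33.g_h6 pG_EXT pG_TYP pG_FLP

theorem pG_HALF7 : G_HALF 7 := H34.g_h7 pG_EXT pG_TYP pG_FLP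

theorem pG_HALF8 : G_HALF 8 := H24.g_h8 pG_EXT pG_TYP pG_FLP

theorem pG_A : G_A := H34.g_a pG_EXT

theorem pG_CLA : G_CLA := H4.g_cla

theorem pG_CLD : G_CLD := H13.g_cld

theorem pG_D : G_D := H66.g_d pG_EXT pG_TYP pG_HALF4 pG_HALF5 pG_HALF6 pG_HALF7 pG_HALF8

theorem pG_RK : G_RK := H9.g_rk

theorem pE_BIG : E_BIG := e_big pG_D pG_A pG_CLA pG_CLD pG_RK

theorem pH_GRP : H_GRP := H24.h_grp pE_TWO

theorem pH_CAP : H_CAP := H47.h_cap pE_NON

theorem pH_A : H_A := H56.h_A pE_NOR pE_J1 pE_J2 pE_J4 pE_N2 pE_ORT pE_BIG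

theorem pH_B : H_B := H60.h_B pE_NOR pE_J1 pE_J2 pE_J4 pE_N2 pE_ORT pE_CAP pE_BIG

theorem pH_C : H_C := H40.h_c pE_NOR pE_J1 pE_J2 pE_J4 pE_N2 pE_ORT pE_NON pE_CAP

theorem pH_I : H_I := H65.h_i pE_VAL pE_TWO2

theorem pE_THM : E_THM := e_thm pE_SHO pE_COM pE_RNK pH_GRP pH_CAP pH_A pH_B pH_C pH_I

theorem pU_RED : U_RED := H56.u_RED

theorem pU_GOD : U_GOD := H4.u_god pU_RED

/-- squad CON: no non uniform reflective congruence lattice for n >= 14 -/
theorem main {n : ℕ} (hn : 14 ≤ n) (Γ : Subgroup (V n ≃ₗ[ℝ] V n)) (hΓ : GenByRefl Γ)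
    (hnu : ¬ Uniform Γ) : ¬ IsCongruence Γ :=
  final pA_ISO pA_RAT pA_INV pA_MIN pA_IND pA_CNG pB_DIV pB_TEM pC_RTG pD_PD pD_IND pD_RGM
    pD_RGN pE_THM pU_GOD n hn Γ hΓ hnu

end Pool.Agent.CON

end
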