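import Pool.Agent.Helper25_CON.Stmts

/-!
Squad CON: assembly of E_BIG from the modules G
-/

noncomputable section

namespace Pool.Agent.CON

open Pool.Agent.H25Cong

lemma Rk.mono {M : Type} [AddCommGroup M] {C : Set M} {j k : ℕ} (h : Rk C k) (hjk : j ≤ k) :
    Rk C j := by
  obtain ⟨c, hc, hl⟩ := h
  exact ⟨fun i => c (Fin.castLE hjk i), fun i => hc _,
    hl.comp _ (Fin.castLE_injective hjk)⟩

theorem e_big (hD : G_D) (hA : G_A) (hCA : G_CLA) (hCD : G_CLD) (hR : G_RK) : E_BIG := by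
  intro M _ _ b C s m hb hC hs hm hme hr
  obtain ⟨hR1, hR2, hR3, hR4⟩ := hR M b C s hb hC
  have hfin : ∀ (k : ℕ) (v : Fin k → M), LinearIndependent ℤ v → k ≤ Module.finrank ℤ M := by
    intro k v hv
    simpa using hv.fintype_card_le_finrank
  by_cases h4 : ∃ F : Fin 4 → M, DFr b C s 4 F
  · -- maximal orthogonal frame
    have hex : ∃ k, 4 ≤ k ∧ (∃ F : Fin k → M, DFr b C s k F) ∧ MaxD b C s k := by
      classical
      have hbd : ∀ k, (∃ F : Fin k → M, DFr b C s k F) → k ≤ Module.finrank ℤ M :=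
        fun k ⟨F, hF⟩ => hfin k F (hR2 k F hF)
      refine ⟨Nat.findGreatest (fun k => ∃ F : Fin k → M, DFr b C s k F) (Module.finrank ℤ M),
        ?_, ?_, ?_⟩
      · exact Nat.le_findGreatest (hbd 4 h4) h4
      · exact Nat.findGreatest_spec (P := fun k => ∃ F : Fin k → M, DFr b C s k F) (hbd 4 h4) h4
      · intro k' hk' F' hF'
        exact absurd (Nat.le_findGreatest (P := fun k => ∃ F : Fin k → M, DFr b C s k F)
          (hbd k' ⟨F', hF'⟩) ⟨F', hF'⟩) (not_le.mpr hk')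
    obtain ⟨k, hk4, ⟨F, hF⟩, hmax⟩ := hex
    have hin := hD M b C s k F hb hC hk4 hF hmax (hr.mono (by omega))
    have hmk : m + 1 ≤ k := hR4 k (m + 1) F hF hin hr
    exact hCD M b C s k m F hb hC hs hF hin (by omega) hme (by omega)
  · push Not at h4
    have hex : ∃ k, 1 ≤ k ∧ (∃ v : Fin k → M, AFr b C s k v) ∧
        ∀ v' : Fin (k + 1) → M, ¬ AFr b C s (k + 1) v' := by
      classical
      have hbd : ∀ k, (∃ F : Fin k → M, AFr b C s k F) → k ≤ Module.finrank ℤ M :=
        fun k ⟨F, hF⟩ => hfin k F (hR1 k F hF)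
      obtain ⟨α, hα⟩ := hC.ne
      have h1 : ∃ F : Fin 1 → M, AFr b C s 1 F :=
        ⟨fun _ => α, fun _ => hα, fun i j hij => absurd (Subsingleton.elim i j) hij⟩
      refine ⟨Nat.findGreatest (fun k => ∃ F : Fin k → M, AFr b C s k F) (Module.finrank ℤ M),
        ?_, ?_, ?_⟩
      · exact Nat.le_findGreatest (hbd 1 h1) h1
      · exact Nat.findGreatest_spec (P := fun k => ∃ F : Fin k → M, AFr b C s k F) (hbd 1 h1) h1
      · intro v' hv'
        have := Nat.le_findGreatest (P := fun k => ∃ F : Fin k → M, AFr b C s k F)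
          (hbd _ ⟨v', hv'⟩) ⟨v', hv'⟩
        omega
    obtain ⟨k, hk1, ⟨v, hv⟩, hmax⟩ := hex
    have hin := hA M b C s k v hb hC hk1 hv h4 hmax
    have hmk : m + 1 ≤ k := hR3 k (m + 1) v hv hin hr
    exact hCA M b C s k m v hb hC hs hv hin (by omega) hme (by omega)

end Pool.Agent.CON

end
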