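import Pool.Agent.Helper25_Cong.Free

/-!
Squad CON (MP_6d18f4_al, Q2): for n >= 14 no non-uniform reflective arithmetic lattice is a
congruence subgroup. Definitions. Plan with complete proofs: /team-store/PLAN_CON.md
-/

noncomputable section

namespace Pool.Agent.CON

open Pool.Agent.H25Cong

variable {n : ℕ}

/-! ### Part 0: lattices in the Lorentzian space -/

/-- L is a lattice: it is spanned over the integers by a basis of the real space -/
def IsLat (L : Submodule ℤ (V n)) : Prop :=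
  ∃ b : Module.Basis (Fin (n + 1)) ℝ (V n), L = Submodule.span ℤ (Set.range b)

/-- L is an even lattice: B x y integral, B x x even -/
structure EvenLat (L : Submodule ℤ (V n)) : Prop where
  lat : IsLat L
  int : ∀ x ∈ L, ∀ y ∈ L, ∃ k : ℤ, B x y = k
  even : ∀ x ∈ L, ∃ k : ℤ, B x x = 2 * k

/-- Γ maps L into itself -/
def Inv (Γ : Subgroup (V n ≃ₗ[ℝ] V n)) (L : Submodule ℤ (V n)) : Prop :=
  ∀ g ∈ Γ, ∀ x ∈ L, g x ∈ L

/-- L and t Λ are commensurable for some t > 0 -/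
def Csc (Λ L : Submodule ℤ (V n)) : Prop :=
  ∃ (t : ℝ) (D : ℕ), 0 < t ∧ 0 < D ∧ (∀ x ∈ Λ, ((D : ℝ) * t) • x ∈ L) ∧
    ∀ x ∈ L, ∃ y ∈ Λ, (D : ℝ) • x = t • y

/-- Γ contains, up to sign, the principal congruence subgroup of level N of O(Λ) -/
def CongSub (Λ : Submodule ℤ (V n)) (N : ℕ) (Γ : Subgroup (V n ≃ₗ[ℝ] V n)) : Prop :=
  ∀ g ∈ OLat Λ, IsOneMod Λ N g → ∃ h ∈ Γ, SameAction g h

/-- the (primitive) roots of L -/
def Root (L : Submodule ℤ (V n)) (a : V n) : Prop :=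
  a ∈ L ∧ 0 < B a a ∧ (∀ x ∈ L, ∃ k : ℤ, 2 * B a x = k * B a a) ∧
    ∀ (k : ℕ) (c : V n), c ∈ L → a = (k : ℝ) • c → k = 1

/-- the group generated by the reflections in the roots of L -/
def WL (L : Submodule ℤ (V n)) : Subgroup (V n ≃ₗ[ℝ] V n) :=
  Subgroup.closure (S '' {a | Root L a})

/-- the vectors x in L with B x L divisible by p -/
def Rad (L : Submodule ℤ (V n)) (p : ℕ) : Submodule ℤ (V n) where
  carrier := {x | x ∈ L ∧ ∀ y ∈ L, ∃ k : ℤ, B x y = p * k}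
  add_mem' := by
    rintro x y ⟨hx, hx'⟩ ⟨hy, hy'⟩
    refine ⟨L.add_mem hx hy, fun z hz => ?_⟩
    obtain ⟨a, ha⟩ := hx' z hz
    obtain ⟨b, hb⟩ := hy' z hz
    exact ⟨a + b, by rw [B_add_left, ha, hb]; push_cast; ring⟩
  zero_mem' := ⟨L.zero_mem, fun z _ => ⟨0, by simp⟩⟩
  smul_mem' := by
    rintro c x ⟨hx, hx'⟩
    refine ⟨L.smul_mem c hx, fun z hz => ?_⟩
    obtain ⟨a, ha⟩ := hx' z hz
    refine ⟨c * a, ?_⟩
    rw [← Int.cast_smul_eq_zsmul ℝ, B_smul_left, ha]; push_cast; ring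

/-- k vectors of L which are independent modulo p and the radical of B mod p -/
def Ind (L : Submodule ℤ (V n)) (p k : ℕ) : Prop :=
  ∃ c : Fin k → V n, (∀ i, c i ∈ L) ∧ ∀ z : Fin k → ℤ,
    (∀ y ∈ L, ∃ j : ℤ, B (∑ i, (z i : ℝ) • c i) y = p * j) → ∀ i, (p : ℤ) ∣ z i

/-- every m in L orthogonal to e is, modulo multiples of e, a sum of roots orthogonal to e -/
def RG (L : Submodule ℤ (V n)) (e : V n) : Prop :=
  ∀ m ∈ L, B m e = 0 → ∃ q ∈ AddSubgroup.closure {a : V n | Root L a ∧ B a e = 0}, ∃ c : ℝ,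
    m = q + c • e

/-- the positive definite lattice orthogonal to e and f -/
def Mef (L : Submodule ℤ (V n)) (e f : V n) : AddSubgroup (V n) where
  carrier := {x | x ∈ L ∧ B x e = 0 ∧ B x f = 0}
  add_mem' := by
    rintro x y ⟨hx, hx1, hx2⟩ ⟨hy, hy1, hy2⟩
    exact ⟨L.add_mem hx hy, by rw [B_add_left, hx1, hy1, add_zero],
      by rw [B_add_left, hx2, hy2, add_zero]⟩
  zero_mem' := ⟨L.zero_mem, by simp, by simp⟩
  neg_mem' := by
    rintro x ⟨hx, hx1, hx2⟩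
    exact ⟨L.neg_mem hx, by rw [B_neg_left, hx1, neg_zero], by rw [B_neg_left, hx2, neg_zero]⟩

/-- the integral form on a subgroup of V -/
def bG (G : AddSubgroup (V n)) (x y : G) : ℤ := ⌊B (x : V n) (y : V n)⌋

/-- half the norm on a subgroup of V -/
def qG (G : AddSubgroup (V n)) (x : G) : ℤ := ⌊B (x : V n) (x : V n) / 2⌋

/-! ### Part 1: abstract integral quadratic forms -/

/-- q is an integral quadratic form on A with polar form b -/
structure QF {A : Type} [AddCommGroup A] (b : A → A → ℤ) (q : A → ℤ) : Prop where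
  add_left : ∀ x y z, b (x + y) z = b x z + b y z
  symm : ∀ x y, b x y = b y x
  self : ∀ x, b x x = 2 * q x
  q_add : ∀ x y, q (x + y) = q x + q y + b x y

/-- k vectors independent modulo p and the radical of b mod p; all vectors in the subgroup Y
(with the form restricted to Y) -/
def IndA {A : Type} [AddCommGroup A] (b : A → A → ℤ) (Y : AddSubgroup A) (p k : ℕ) : Prop :=
  ∃ c : Fin k → A, (∀ i, c i ∈ Y) ∧ ∀ z : Fin k → ℤ,
    (∀ y ∈ Y, (p : ℤ) ∣ b (∑ i, z i • c i) y) → ∀ i, (p : ℤ) ∣ z i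

/-- u, w is a hyperbolic pair modulo p -/
def HP {A : Type} (b : A → A → ℤ) (q : A → ℤ) (p : ℕ) (u w : A) : Prop :=
  (p : ℤ) ∣ q u ∧ (p : ℤ) ∣ q w ∧ (p : ℤ) ∣ b u w - 1

/-! ### Part 2: positive definite even lattices -/

/-- b is a positive definite even integral form on M -/
structure PD {M : Type} [AddCommGroup M] (b : M → M → ℤ) : Prop where
  add_left : ∀ x y z, b (x + y) z = b x z + b y z
  symm : ∀ x y, b x y = b y x
  even : ∀ x, ∃ k : ℤ, b x x = 2 * k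
  pos : ∀ x, x ≠ 0 → 0 < b x x

/-- M is generated by its roots -/
def RGM {M : Type} [AddCommGroup M] (b : M → M → ℤ) : Prop :=
  ∀ t : M, t ∈ AddSubgroup.closure {t : M | t ≠ 0 ∧ ∀ s, b t t ∣ 2 * b t s}

/-- membership in (twice) the 2-neighbour of M defined by x -/
def InN {M : Type} [AddCommGroup M] (b : M → M → ℤ) (x t : M) : Prop :=
  ∃ (y : M) (c : ℤ), t = (2 : ℤ) • y - c • x ∧ (2 : ℤ) ∣ b y x - c

/-- the 2-neighbour defined by x is generated by its roots -/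
def RGN {M : Type} [AddCommGroup M] (b : M → M → ℤ) (x : M) : Prop :=
  ∀ t : M, InN b x t →
    t ∈ AddSubgroup.closure {t : M | InN b x t ∧ t ≠ 0 ∧ ∀ s, InN b x s → b t t ∣ 2 * b t s}

/-- the goal of Part 2: a bad 2-neighbour -/
def Bad {M : Type} [AddCommGroup M] (b : M → M → ℤ) : Prop :=
  ∃ x : M, (∃ k : ℤ, b x x = 8 * k + 4) ∧ ¬ RGN b x

/-- a system of (short) roots generating M -/
structure RS {M : Type} [AddCommGroup M] (b : M → M → ℤ) (R : Set M) : Prop where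
  gen : ∀ x : M, x ∈ AddSubgroup.closure R
  ne : ∀ α ∈ R, α ≠ 0
  norm : ∀ α ∈ R, ∀ β ∈ R, b α β ≠ 0 → b α α = b β β
  dvd : ∀ α ∈ R, ∀ β ∈ R, b α α ∣ 2 * b α β
  refl : ∀ α ∈ R, ∀ β ∈ R, ∀ k : ℤ, 2 * b α β = k * b α α → β - k • α ∈ R

/-- an irreducible simply laced root system, scaled by s -/
structure Irr {M : Type} [AddCommGroup M] (b : M → M → ℤ) (C : Set M) (s : ℤ) : Prop where
  ne : C.Nonempty
  pos : 0 < s
  norm : ∀ α ∈ C, b α α = 2 * s
  dvd : ∀ α ∈ C, ∀ β ∈ C, s ∣ b α β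
  refl : ∀ α ∈ C, ∀ β ∈ C, ∀ k : ℤ, b α β = k * s → β - k • α ∈ C
  conn : ∀ D ⊆ C, D.Nonempty → (∀ α ∈ D, ∀ β ∈ C, β ∉ D → b α β = 0) → D = C

/-- C contains k linearly independent vectors -/
def Rk {M : Type} [AddCommGroup M] (C : Set M) (k : ℕ) : Prop :=
  ∃ c : Fin k → M, (∀ i, c i ∈ C) ∧ LinearIndependent ℤ c

/-- C is capable: x of norm divisible by 4 and odd product with some y -/
def Cap {M : Type} [AddCommGroup M] (b : M → M → ℤ) (C : Set M) : Prop :=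
  ∃ x ∈ AddSubgroup.closure C, (4 : ℤ) ∣ b x x ∧ ∃ y ∈ AddSubgroup.closure C, ¬ (2 : ℤ) ∣ b x y

/-- lower bound for the norm of the component, in the class of x modulo 2, of a new root whose
norm is 4 ρ in M (ρ in the neighbour) -/
def JB {M : Type} [AddCommGroup M] (b : M → M → ℤ) (C : Set M) (x : M) (j : ℤ) : Prop :=
  ∀ z ∈ AddSubgroup.closure C, ∀ ρ : ℤ, 0 < ρ → ρ % 4 = 2 →
    (∀ y ∈ AddSubgroup.closure C, (2 : ℤ) ∣ b x y → ρ ∣ b (x + (2 : ℤ) • z) y) →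
    j * ρ ≤ b (x + (2 : ℤ) • z) (x + (2 : ℤ) • z)

/-- x is not twice a vector of the lattice generated by C -/
def N2 {M : Type} [AddCommGroup M] (C : Set M) (x : M) : Prop :=
  ∀ z ∈ AddSubgroup.closure C, x ≠ (2 : ℤ) • z

/-- M is the orthogonal sum of finitely many irreducible components C i of rank r i -/
structure Comps {M : Type} [AddCommGroup M] (b : M → M → ℤ) {ι : Type} [Fintype ι]
    (C : ι → Set M) (s : ι → ℤ) (r : ι → ℕ) : Prop where
  irr : ∀ i, Irr b (C i) (s i)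
  orth : ∀ i j, i ≠ j → ∀ α ∈ C i, ∀ β ∈ C j, b α β = 0
  gen : ∀ x : M, x ∈ AddSubgroup.closure (⋃ i, C i)
  rk : ∀ i, Rk (C i) (r i)
  rk' : ∀ i, ¬ Rk (C i) (r i + 1)

end Pool.Agent.CON

end
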