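import Pool.Agent.Helper25_CON.Defs

/-!
Squad CON: the module statements. Plan with complete proofs: /team-store/PLAN_CON.md
-/

noncomputable section

namespace Pool.Agent.CON

open Pool.Agent.H25Cong

/-! ### Part A: reduction to W(L) with L of minimal determinant -/

/-- A1: γ e is a real multiple of a vector of Λ -/
def A_ISO : Prop := ∀ (n : ℕ) (Γ : Subgroup (V n ≃ₗ[ℝ] V n)) (Λ : Submodule ℤ (V n)) (N : ℕ),
  2 ≤ n → GenByRefl Γ → IsIntegralLattice Λ → 0 < N → Subgroup.Commensurable Γ (OLat Λ) →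
  CongSub Λ N Γ → ∀ γ ∈ Γ, ∀ e ∈ Λ, e ≠ 0 → B e e = 0 → ∃ c : ℝ, c ≠ 0 ∧ c • γ e ∈ Λ

/-- A2: the isotropic vectors of Λ generate a subgroup of finite index -/
def A_SPN : Prop := ∀ (n : ℕ) (Λ : Submodule ℤ (V n)), IsIntegralLattice Λ →
  (∃ e ∈ Λ, e ≠ 0 ∧ B e e = 0) →
  ∃ D : ℕ, 0 < D ∧ ∀ x ∈ Λ, (D : ℝ) • x ∈ AddSubgroup.closure {e : V n | e ∈ Λ ∧ B e e = 0}

/-- A3: a reflection which maps isotropic vectors of Λ to multiples of vectors of Λ is rational -/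
def A_RAT : Prop := ∀ (n : ℕ) (Λ : Submodule ℤ (V n)) (r : V n), 2 ≤ n → 0 < B r r →
  IsIntegralLattice Λ → (∃ e ∈ Λ, e ≠ 0 ∧ B e e = 0) →
  (∀ e ∈ Λ, e ≠ 0 → B e e = 0 → ∃ c : ℝ, c ≠ 0 ∧ c • S r e ∈ Λ) →
  ∃ D : ℕ, 0 < D ∧ ∀ x ∈ Λ, (D : ℝ) • S r x ∈ Λ

/-- A4: an even Γ-invariant lattice -/
def A_INV : Prop := ∀ (n : ℕ) (Γ : Subgroup (V n ≃ₗ[ℝ] V n)) (Λ : Submodule ℤ (V n)),
  GenByRefl Γ → IsIntegralLattice Λ → Subgroup.Commensurable Γ (OLat Λ) →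
  (∀ γ ∈ Γ, ∃ D : ℕ, 0 < D ∧ ∀ x ∈ Λ, (D : ℝ) • γ x ∈ Λ) →
  ∃ L : Submodule ℤ (V n), EvenLat L ∧ Inv Γ L ∧ Csc Λ L

/-- A5: a submodule between k L and L is a lattice -/
def A_SUB : Prop := ∀ (n : ℕ) (L L' : Submodule ℤ (V n)) (k : ℕ), IsLat L → 0 < k → L' ≤ L →
  (∀ x ∈ L, (k : ℝ) • x ∈ L') → IsLat L'

/-- A6: the covolume; L is a lattice in the sense of Mathlib -/
def A_COV : Prop := ∀ (n : ℕ), ∃ vol : Submodule ℤ (V n) → ℝ,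
  (∀ L, IsLat L → 0 < vol L) ∧
  (∀ L, EvenLat L → ∃ k : ℕ, vol L ^ 2 = k) ∧
  (∀ L L', IsLat L → IsLat L' → L' ≤ L →
    vol L' = (L'.toAddSubgroup.relIndex L.toAddSubgroup : ℕ) * vol L) ∧
  (∀ (L L' : Submodule ℤ (V n)) (c : ℝ), IsLat L → 0 < c → (∀ x, x ∈ L' ↔ c⁻¹ • x ∈ L) →
    IsLat L' ∧ vol L' = c ^ (n + 1) * vol L)

/-- A7: a minimal lattice has large rank modulo every prime -/
def A_MIN : Prop := ∀ (n : ℕ) (Γ : Subgroup (V n ≃ₗ[ℝ] V n)) (Λ : Submodule ℤ (V n)), 14 ≤ n →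
  (∃ L, EvenLat L ∧ Inv Γ L ∧ Csc Λ L) → (∀ g ∈ Γ, Isom g) →
  ∃ L, EvenLat L ∧ Inv Γ L ∧ Csc Λ L ∧
    ∀ p : ℕ, p.Prime → p ^ 6 < (Rad L p).toAddSubgroup.relIndex L.toAddSubgroup

/-- A8: the index of the radical gives independent vectors -/
def A_IND : Prop := ∀ (n : ℕ) (L : Submodule ℤ (V n)) (p : ℕ), EvenLat L → p.Prime →
  p ^ 6 < (Rad L p).toAddSubgroup.relIndex L.toAddSubgroup → Ind L p 7

/-- A9: reflections preserving L are reflections in roots -/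
def A_REF : Prop := ∀ (n : ℕ) (L : Submodule ℤ (V n)) (g : V n ≃ₗ[ℝ] V n), EvenLat L →
  IsReflection g → (∀ x ∈ L, g x ∈ L) → ∃ a, Root L a ∧ g = S a

/-- A10: W(L) contains a principal congruence subgroup of O(L) -/
def A_CNG : Prop := ∀ (n : ℕ) (Γ : Subgroup (V n ≃ₗ[ℝ] V n)) (Λ L : Submodule ℤ (V n)) (N : ℕ),
  GenByRefl Γ → 0 < N → CongSub Λ N Γ → EvenLat L → Inv Γ L → Csc Λ L →
  ∃ N' : ℕ, 0 < N' ∧ CongSub L N' (WL L)

/-! ### Part B: local computations -/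

/-- B1: a quadratic form of rank at least 3 modulo p represents a hyperbolic pair -/
def B_HYP : Prop := ∀ (A : Type) [AddCommGroup A] (b : A → A → ℤ) (q : A → ℤ) (Y : AddSubgroup A)
  (p : ℕ), QF b q → p.Prime → IndA b Y p 3 → ∃ u ∈ Y, ∃ w ∈ Y, HP b q p u w

/-- B2: the rank drops by at most 2 on the orthogonal complement of a hyperbolic pair -/
def B_CMP : Prop := ∀ (A : Type) [AddCommGroup A] (b : A → A → ℤ) (q : A → ℤ)
  (Y Y' : AddSubgroup A) (p k : ℕ) (u w : A), QF b q → p.Prime → u ∈ Y → w ∈ Y → HP b q p u w →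
  (∀ y, y ∈ Y' ↔ y ∈ Y ∧ (p : ℤ) ∣ b y u ∧ (p : ℤ) ∣ b y w) → IndA b Y p (k + 2) → IndA b Y' p k

/-- B3: the rank drops by at most 2 on the kernel of a linear functional -/
def B_KER : Prop := ∀ (A : Type) [AddCommGroup A] (b : A → A → ℤ) (q : A → ℤ)
  (Y : AddSubgroup A) (p k : ℕ) (φ : A →+ ℤ) (a : A), QF b q → p.Prime → φ a = 1 →
  (∀ y, y ∈ Y ↔ φ y = 0) → IndA b ⊤ p (k + 2) → IndA b Y p k

/-- B4: Hensel and the Chinese remainder theorem -/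
def B_HEN : Prop := ∀ (A : Type) [AddCommGroup A] (b : A → A → ℤ) (q : A → ℤ)
  (Y : AddSubgroup A) (w0 : A) (c : ℤ) (N : ℕ) (y y' : ℕ → A), QF b q → 0 < N →
  (∀ p : ℕ, p.Prime → p ∣ N → y p ∈ Y ∧ y' p ∈ Y ∧ (p : ℤ) ∣ q (w0 + y p) - c ∧
    ¬ (p : ℤ) ∣ b (w0 + y p) (y' p)) →
  ∃ v ∈ Y, (N : ℤ) ∣ q (w0 + v) - c ∧ ∀ p : ℕ, p.Prime → p ∣ N → ∃ s ∈ Y, v - y p = (p : ℤ) • s

/-- B5: two orthogonal hyperbolic pairs: the smooth vectors with q = 1 generate -/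
def B_SPN : Prop := ∀ (A : Type) [AddCommGroup A] (b : A → A → ℤ) (q : A → ℤ) (p : ℕ)
  (u w u' w' : A) (H : AddSubgroup A), QF b q → p.Prime → HP b q p u w → HP b q p u' w' →
  (p : ℤ) ∣ b u u' → (p : ℤ) ∣ b u w' → (p : ℤ) ∣ b w u' → (p : ℤ) ∣ b w w' →
  (∀ x : A, (p : ℤ) • x ∈ H) → (∀ v, (p : ℤ) ∣ q v - 1 → (∃ y, ¬ (p : ℤ) ∣ b v y) → v ∈ H) →
  H = ⊤

/-- B6: an isotropic vector with divisor 1 -/
def B_DIV : Prop := ∀ (n : ℕ) (L : Submodule ℤ (V n)), EvenLat L →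
  (∀ p : ℕ, p.Prime → Ind L p 7) → (∃ e ∈ L, e ≠ 0 ∧ B e e = 0) →
  ∃ e ∈ L, ∃ f ∈ L, B e e = 0 ∧ B f f = 0 ∧ B e f = -1

/-- B7: (m,μ) μ is a translation vector of W(L) -/
def B_TRN : Prop := ∀ (n : ℕ) (L : Submodule ℤ (V n)) (N : ℕ) (e f m μ : V n), EvenLat L →
  0 < N → CongSub L N (WL L) → e ∈ L → f ∈ L → B e e = 0 → B f f = 0 → B e f = -1 →
  m ∈ L → B m e = 0 → B m f = 0 → μ ∈ L → B μ e = 0 → B μ f = 0 →
  (∃ k : ℤ, B μ μ = 2 + 2 * N ^ 2 * k) →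
  ∃ (he : B e e = 0) (h : B (B m μ • μ) e = 0), E e (B m μ • μ) he h ∈ WL L

/-- B8: all Eichler transformations E(e,m) lie in W(L) -/
def B_TEM : Prop := ∀ (n : ℕ) (L : Submodule ℤ (V n)) (N : ℕ) (e f m : V n), EvenLat L →
  (∀ p : ℕ, p.Prime → Ind L p 7) →
  0 < N → CongSub L N (WL L) → e ∈ L → f ∈ L → B e e = 0 → B f f = 0 → B e f = -1 →
  m ∈ L → ∀ (he : B e e = 0) (h : B m e = 0), E e m he h ∈ WL L

/-! ### Part C: root generation at a cusp -/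

/-- C1: w is a product of reflections in its inversion set -/
def C_INV : Prop := ∀ (n : ℕ) (R : Set (V n)) (v : V n) (w : V n ≃ₗ[ℝ] V n), RootSys R v →
  w ∈ Subgroup.closure (S '' R) →
  w ∈ Subgroup.closure (S '' {b | b ∈ R ∧ 0 < B b v ∧ B b (w v) < 0})

/-- C2: the norms of roots are bounded -/
def C_BDD : Prop := ∀ (n : ℕ) (L : Submodule ℤ (V n)), EvenLat L →
  ∃ K : ℝ, 0 < K ∧ ∀ a, Root L a → B a a ≤ K

/-- C3: the roots of L form a root system -/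
def C_SYS : Prop := ∀ (n : ℕ) (L : Submodule ℤ (V n)) (v : V n), EvenLat L → B v v < 0 →
  (∀ a, Root L a → B a v ≠ 0) → RootSys {a | Root L a} v

/-- C4: a point of the small horoball off all mirrors -/
def C_OFF : Prop := ∀ (n : ℕ) (L : Submodule ℤ (V n)) (e : V n) (K : ℝ), 1 ≤ n → EvenLat L →
  e ≠ 0 → B e e = 0 → 0 < K →
  ∃ v : V n, B v v < 0 ∧ B e v ^ 2 * K < - B v v ∧ ∀ a, Root L a → B a v ≠ 0

/-- C5: a mirror which separates v and g v, g a transvection at e, passes through e -/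
def C_HOR : Prop := ∀ (n : ℕ) (e v a m : V n) (K : ℝ) (he : B e e = 0) (hm : B m e = 0),
  B v v < 0 → 0 < K → B e v ^ 2 * K < - B v v → 0 < B a a → B a a ≤ K →
  (B a e = 0 ∨ 1 ≤ B a e ^ 2) → 0 < B a v → B a (E e m he hm v) < 0 → B a e = 0

/-- C6: conclusion -/
def C_RTG : Prop := ∀ (n : ℕ) (L : Submodule ℤ (V n)) (e f : V n), 1 ≤ n → EvenLat L → e ∈ L →
  f ∈ L → B e e = 0 → B e f = -1 →
  (∀ m ∈ L, ∀ (he : B e e = 0) (h : B m e = 0), E e m he h ∈ WL L) → RG L e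

/-! ### Part D: the positive definite lattice at a cusp and its neighbours -/

/-- D1 -/
def D_PD : Prop := ∀ (n : ℕ) (L : Submodule ℤ (V n)) (e f : V n), EvenLat L → e ∈ L → f ∈ L →
  B e e = 0 → B f f = 0 → B e f = -1 →
  PD (bG (Mef L e f)) ∧ Module.Finite ℤ (Mef L e f) ∧
  ∃ c : Fin (n - 1) → Mef L e f, LinearIndependent ℤ c

/-- D2 -/
def D_IND : Prop := ∀ (n : ℕ) (L : Submodule ℤ (V n)) (e f : V n) (p k : ℕ), EvenLat L → e ∈ L →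
  f ∈ L → B e e = 0 → B f f = 0 → B e f = -1 → p.Prime → Ind L p (k + 2) →
  IndA (bG (Mef L e f)) ⊤ p k

/-- D3 -/
def D_RGM : Prop := ∀ (n : ℕ) (L : Submodule ℤ (V n)) (e f : V n), EvenLat L → e ∈ L → f ∈ L →
  B e e = 0 → B f f = 0 → B e f = -1 → RG L e → RGM (bG (Mef L e f))

/-- D4: the neighbour -/
def D_RGN : Prop := ∀ (n : ℕ) (L : Submodule ℤ (V n)) (e f : V n), EvenLat L → e ∈ L → f ∈ L →
  B e e = 0 → B f f = 0 → B e f = -1 →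
  (∀ e' ∈ L, ∀ f' ∈ L, B e' e' = 0 → B f' f' = 0 → B e' f' = -1 → RG L e') →
  ∀ x : Mef L e f, (∃ k : ℤ, bG (Mef L e f) x x = 8 * k + 4) → RGN (bG (Mef L e f)) x

/-! ### Part E: every root generated lattice of rank at least 13 has a bad neighbour -/

/-- E1: short roots -/
def E_SHO : Prop := ∀ (M : Type) [AddCommGroup M] (b : M → M → ℤ), PD b → RGM b → ∃ R, RS b R

/-- E2: components -/
def E_COM : Prop := ∀ (M : Type) [AddCommGroup M] [Module.Finite ℤ M] (b : M → M → ℤ) (R : Set M),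
  PD b → RS b R → ∃ (k : ℕ) (C : Fin k → Set M) (s : Fin k → ℤ) (r : Fin k → ℕ), Comps b C s r

/-- E3: the ranks add up -/
def E_RNK : Prop := ∀ (M : Type) [AddCommGroup M] [Module.Finite ℤ M] (b : M → M → ℤ) (k d : ℕ)
  (C : Fin k → Set M) (s : Fin k → ℤ) (r : Fin k → ℕ), PD b → Comps b C s r →
  (∃ c : Fin d → M, LinearIndependent ℤ c) → d ≤ ∑ i, r i

/-- E4: the lattice spanned by C has form values in s Z and norms in 2 s Z -/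
def E_VAL : Prop := ∀ (M : Type) [AddCommGroup M] (b : M → M → ℤ) (C : Set M) (s : ℤ), PD b →
  Irr b C s → ∀ x ∈ AddSubgroup.closure C, (∀ y ∈ AddSubgroup.closure C, s ∣ b x y) ∧
    2 * s ∣ b x x

/-- E5: no new roots -/
def E_NOR : Prop := ∀ (M : Type) [AddCommGroup M] (b : M → M → ℤ) (k : ℕ)
  (C : Fin k → Set M) (s : Fin k → ℤ) (r : Fin k → ℕ) (x : Fin k → M) (j : Fin k → ℤ),
  PD b → Comps b C s r → (∀ i, x i ∈ AddSubgroup.closure (C i)) → (∀ i, 0 ≤ j i) →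
  (∀ i, j i ≠ 0 → JB b (C i) (x i) (j i)) → 5 ≤ ∑ i, j i → (4 : ℤ) ∣ b (∑ i, x i) (∑ i, x i) →
  (∃ y, ¬ (2 : ℤ) ∣ b (∑ i, x i) y) → Bad b

/-- E6: two capable summands -/
def E_TWO : Prop := ∀ (M : Type) [AddCommGroup M] (b : M → M → ℤ) (S1 S2 : AddSubgroup M)
  (x1 x2 z1 z2 : M), PD b → (∀ y ∈ S1, ∀ z ∈ S2, b y z = 0) → S1 ⊔ S2 = ⊤ →
  x1 ∈ S1 → x2 ∈ S2 → z1 ∈ S1 → z2 ∈ S2 → (4 : ℤ) ∣ b x1 x1 → (4 : ℤ) ∣ b x2 x2 →
  ¬ (2 : ℤ) ∣ b x1 z1 → ¬ (2 : ℤ) ∣ b x2 z2 → Bad b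

/-- E7: JB = 1 -/
def E_J1 : Prop := ∀ (M : Type) [AddCommGroup M] (b : M → M → ℤ) (C : Set M) (x : M), PD b →
  x ∈ AddSubgroup.closure C → N2 C x → JB b C x 1

/-- E8: JB = 2 -/
def E_J2 : Prop := ∀ (M : Type) [AddCommGroup M] (b : M → M → ℤ) (C : Set M) (x : M), PD b →
  x ∈ AddSubgroup.closure C → N2 C x → (4 : ℤ) ∣ b x x → JB b C x 2

/-- E9: JB = 4 for the sum of two orthogonal roots, s even -/
def E_J4 : Prop := ∀ (M : Type) [AddCommGroup M] (b : M → M → ℤ) (C : Set M) (s : ℤ) (α β : M),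
  PD b → Irr b C s → (2 : ℤ) ∣ s → α ∈ C → β ∈ C → b α β = 0 → JB b C (α + β) 4

/-- E10: roots and sums of orthogonal roots are not divisible by 2 -/
def E_N2 : Prop := ∀ (M : Type) [AddCommGroup M] (b : M → M → ℤ) (C : Set M) (s : ℤ), PD b →
  Irr b C s → (∀ α ∈ C, N2 C α) ∧ (∀ α ∈ C, ∀ β ∈ C, b α β = 0 → N2 C (α + β)) ∧
  ∀ x ∈ AddSubgroup.closure C, (∃ y ∈ AddSubgroup.closure C, ¬ (2 : ℤ) ∣ b x y) → N2 C x

/-- E11: two orthogonal roots -/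
def E_ORT : Prop := ∀ (M : Type) [AddCommGroup M] (b : M → M → ℤ) (C : Set M) (s : ℤ), PD b →
  Irr b C s → Rk C 3 → ∃ α ∈ C, ∃ β ∈ C, b α β = 0

/-- E12: two non orthogonal roots -/
def E_NON : Prop := ∀ (M : Type) [AddCommGroup M] (b : M → M → ℤ) (C : Set M) (s : ℤ), PD b →
  Irr b C s → Rk C 2 → ∃ α ∈ C, ∃ β ∈ C, b α β = s

/-- E13: components which are not capable have rank at most 4 -/
def E_CAP : Prop := ∀ (M : Type) [AddCommGroup M] (b : M → M → ℤ) (C : Set M) (s : ℤ), PD b →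
  Irr b C s → ¬ (2 : ℤ) ∣ s → ¬ Cap b C → ¬ Rk C 5

/-- E14: and are spanned by two vectors modulo 2 and the radical -/
def E_TWO2 : Prop := ∀ (M : Type) [AddCommGroup M] (b : M → M → ℤ) (C : Set M) (s : ℤ), PD b →
  Irr b C s → ¬ (2 : ℤ) ∣ s → ¬ Cap b C →
  ∃ α ∈ C, ∃ β ∈ C, ∀ x ∈ AddSubgroup.closure C, ∃ i j : ℤ, ∀ y ∈ AddSubgroup.closure C,
    (2 : ℤ) ∣ b (x - i • α - j • β) y

/-- E15: big classes in components of large rank -/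
def E_BIG : Prop := ∀ (M : Type) [AddCommGroup M] [Module.Finite ℤ M] (b : M → M → ℤ) (C : Set M)
  (s : ℤ) (m : ℕ), PD b → Irr b C s → ¬ (2 : ℤ) ∣ s → 8 ≤ m → Even m → Rk C (m + 1) →
  ∃ x ∈ AddSubgroup.closure C, (4 : ℤ) ∣ b x x - m ∧
    (∃ y ∈ AddSubgroup.closure C, ¬ (2 : ℤ) ∣ b x y) ∧ JB b C x (m / 2)

/-! #### the components of large rank -/

/-- an orthogonal frame (twice the standard basis of D_k) in the root system C -/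
def DFr {M : Type} [AddCommGroup M] (b : M → M → ℤ) (C : Set M) (s : ℤ) (k : ℕ)
    (F : Fin k → M) : Prop :=
  (∀ i, b (F i) (F i) = 4 * s) ∧ (∀ i j, i ≠ j → b (F i) (F j) = 0) ∧
  ∀ i j, i ≠ j → (∃ w ∈ C, (2 : ℤ) • w = F i + F j) ∧ ∃ w ∈ C, (2 : ℤ) • w = F i - F j

/-- a simplex frame (A_m) in the root system C -/
def AFr {M : Type} [AddCommGroup M] (b : M → M → ℤ) (C : Set M) (s : ℤ) (m : ℕ)
    (v : Fin m → M) : Prop :=
  (∀ i, v i ∈ C) ∧ ∀ i j, i ≠ j → b (v i) (v j) = s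

/-- α is one of the roots ± (F i ± F j) / 2 -/
def InD {M : Type} [AddCommGroup M] {k : ℕ} (F : Fin k → M) (α : M) : Prop :=
  ∃ i j, i ≠ j ∧ ((2 : ℤ) • α = F i + F j ∨ (2 : ℤ) • α = F i - F j ∨ (2 : ℤ) • α = -(F i + F j))

/-- α is one of the roots ± v i, v i - v j -/
def InA {M : Type} [AddCommGroup M] {m : ℕ} (v : Fin m → M) (α : M) : Prop :=
  (∃ i, α = v i ∨ α = - v i) ∨ ∃ i j, i ≠ j ∧ α = v i - v j

/-- G1: extension of an orthogonal frame -/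
def G_EXT : Prop := ∀ (M : Type) [AddCommGroup M] (b : M → M → ℤ) (C : Set M) (s : ℤ) (k : ℕ)
  (F : Fin k → M) (α : M) (i0 : Fin k), PD b → Irr b C s → 2 ≤ k → DFr b C s k F → α ∈ C →
  (b α (F i0) = 2 * s ∨ b α (F i0) = - (2 * s)) → (∀ j, j ≠ i0 → b α (F j) = 0) →
  ∃ F' : Fin (k + 1) → M, DFr b C s (k + 1) F'

/-- G2: the types of a root with respect to an orthogonal frame -/
def G_TYP : Prop := ∀ (M : Type) [AddCommGroup M] (b : M → M → ℤ) (C : Set M) (s : ℤ) (k : ℕ)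
  (F : Fin k → M) (α : M), PD b → Irr b C s → 2 ≤ k → DFr b C s k F → α ∈ C →
  (∀ i, b α (F i) = 0) ∨ InD F α ∨
  (∃ i0, (b α (F i0) = 2 * s ∨ b α (F i0) = - (2 * s)) ∧ ∀ j, j ≠ i0 → b α (F j) = 0) ∨
  (k ≤ 8 ∧ ∃ ε : Fin k → ℤ, (∀ i, ε i = 1 ∨ ε i = -1) ∧ ∀ i, b α (F i) = ε i * s)

/-- G3: two sign changes -/
def G_FLP : Prop := ∀ (M : Type) [AddCommGroup M] (b : M → M → ℤ) (C : Set M) (s : ℤ) (k : ℕ)
  (F : Fin k → M) (α : M) (ε : Fin k → ℤ) (i j : Fin k), PD b → Irr b C s → DFr b C s k F →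
  α ∈ C → (∀ i, ε i = 1 ∨ ε i = -1) → (∀ i, b α (F i) = ε i * s) → i ≠ j →
  ∃ α' ∈ C, (2 : ℤ) • α' = (2 : ℤ) • α - ε i • F i - ε j • F j ∧
    ∀ l, b α' (F l) = (if l = i ∨ l = j then - ε l else ε l) * s

/-- no larger orthogonal frame -/
def MaxD {M : Type} [AddCommGroup M] (b : M → M → ℤ) (C : Set M) (s : ℤ) (k : ℕ) : Prop :=
  ∀ k' > k, ∀ F' : Fin k' → M, ¬ DFr b C s k' F'

/-- a root of half integral type -/
def Half {M : Type} [AddCommGroup M] (b : M → M → ℤ) (s : ℤ) {k : ℕ} (F : Fin k → M)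
    (α : M) : Prop :=
  ∃ ε : Fin k → ℤ, (∀ i, ε i = 1 ∨ ε i = -1) ∧ ∀ i, b α (F i) = ε i * s

/-- G4 .. G8: k = 4, 5, 6, 7, 8 -/
def G_HALF (k : ℕ) : Prop := ∀ (M : Type) [AddCommGroup M] (b : M → M → ℤ) (C : Set M) (s : ℤ)
  (F : Fin k → M) (α : M), PD b → Irr b C s → DFr b C s k F → MaxD b C s k → α ∈ C →
  Half b s F α → ¬ Rk C 9

/-- G9: a maximal orthogonal frame in large rank -/
def G_D : Prop := ∀ (M : Type) [AddCommGroup M] (b : M → M → ℤ) (C : Set M) (s : ℤ) (k : ℕ)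
  (F : Fin k → M), PD b → Irr b C s → 4 ≤ k → DFr b C s k F → MaxD b C s k → Rk C 9 →
  ∀ α ∈ C, InD F α

/-- G10: a maximal simplex frame when there is no orthogonal frame of size 4 -/
def G_A : Prop := ∀ (M : Type) [AddCommGroup M] (b : M → M → ℤ) (C : Set M) (s : ℤ) (m : ℕ)
  (v : Fin m → M), PD b → Irr b C s → 1 ≤ m → AFr b C s m v →
  (∀ F : Fin 4 → M, ¬ DFr b C s 4 F) → (∀ v' : Fin (m + 1) → M, ¬ AFr b C s (m + 1) v') →
  ∀ α ∈ C, InA v α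

/-- G11: the classes of A_n -/
def G_CLA : Prop := ∀ (M : Type) [AddCommGroup M] (b : M → M → ℤ) (C : Set M) (s : ℤ)
  (n m : ℕ) (v : Fin n → M), PD b → Irr b C s → ¬ (2 : ℤ) ∣ s → AFr b C s n v →
  (∀ α ∈ C, InA v α) → 1 ≤ m → Even m → m ≤ n →
  ∃ x ∈ AddSubgroup.closure C, (4 : ℤ) ∣ b x x - m ∧
    (∃ y ∈ AddSubgroup.closure C, ¬ (2 : ℤ) ∣ b x y) ∧ JB b C x (m / 2)

/-- G12: the classes of D_n -/
def G_CLD : Prop := ∀ (M : Type) [AddCommGroup M] (b : M → M → ℤ) (C : Set M) (s : ℤ)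
  (n m : ℕ) (F : Fin n → M), PD b → Irr b C s → ¬ (2 : ℤ) ∣ s → DFr b C s n F →
  (∀ α ∈ C, InD F α) → 1 ≤ m → Even m → m < n →
  ∃ x ∈ AddSubgroup.closure C, (4 : ℤ) ∣ b x x - m ∧
    (∃ y ∈ AddSubgroup.closure C, ¬ (2 : ℤ) ∣ b x y) ∧ JB b C x (m / 2)

/-- G13: the ranks of frames -/
def G_RK : Prop := ∀ (M : Type) [AddCommGroup M] (b : M → M → ℤ) (C : Set M) (s : ℤ), PD b →
  Irr b C s →
  (∀ (n : ℕ) (v : Fin n → M), AFr b C s n v → LinearIndependent ℤ v) ∧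
  (∀ (n : ℕ) (F : Fin n → M), DFr b C s n F → LinearIndependent ℤ F) ∧
  (∀ (n d : ℕ) (v : Fin n → M), AFr b C s n v → (∀ α ∈ C, InA v α) → Rk C d → d ≤ n) ∧
  (∀ (n d : ℕ) (F : Fin n → M), DFr b C s n F → (∀ α ∈ C, InD F α) → Rk C d → d ≤ n)

/-! #### the case analysis -/

/-- capable component with s odd -/
def Bg {M : Type} [AddCommGroup M] (b : M → M → ℤ) (C : Set M) (s : ℤ) : Prop :=
  ¬ (2 : ℤ) ∣ s ∧ Cap b C

/-- not capable, s odd, rank at least 2 -/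
def Md {M : Type} [AddCommGroup M] (b : M → M → ℤ) (C : Set M) (s : ℤ) (r : ℕ) : Prop :=
  ¬ (2 : ℤ) ∣ s ∧ ¬ Cap b C ∧ 2 ≤ r

/-- not capable, s odd, rank at most 1 -/
def Sm {M : Type} [AddCommGroup M] (b : M → M → ℤ) (C : Set M) (s : ℤ) (r : ℕ) : Prop :=
  ¬ (2 : ℤ) ∣ s ∧ ¬ Cap b C ∧ r ≤ 1

/-- H1: two disjoint capable groups of components -/
def H_GRP : Prop := ∀ (M : Type) [AddCommGroup M] (b : M → M → ℤ) (k : ℕ)
  (C : Fin k → Set M) (s : Fin k → ℤ) (r : Fin k → ℕ) (T1 T2 : Finset (Fin k)), PD b →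
  Comps b C s r → Disjoint T1 T2 → Cap b (⋃ i ∈ T1, C i) → Cap b (⋃ i ∈ T2, C i) → Bad b

/-- H2: capable groups of one or two components -/
def H_CAP : Prop := ∀ (M : Type) [AddCommGroup M] (b : M → M → ℤ) (k : ℕ)
  (C : Fin k → Set M) (s : Fin k → ℤ) (r : Fin k → ℕ), PD b → Comps b C s r →
  (∀ i, Bg b (C i) (s i) → Cap b (⋃ l ∈ ({i} : Finset (Fin k)), C l)) ∧
  (∀ i j, i ≠ j → Md b (C i) (s i) (r i) → ¬ (2 : ℤ) ∣ s j →
    Cap b (⋃ l ∈ ({i, j} : Finset (Fin k)), C l))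

/-- H3: one big component, all others small or even -/
def H_A : Prop := ∀ (M : Type) [AddCommGroup M] [Module.Finite ℤ M] (b : M → M → ℤ) (k : ℕ)
  (C : Fin k → Set M) (s : Fin k → ℤ) (r : Fin k → ℕ) (i0 : Fin k), PD b → Comps b C s r →
  13 ≤ ∑ i, r i → Bg b (C i0) (s i0) →
  (∀ i, i ≠ i0 → Sm b (C i) (s i) (r i) ∨ (2 : ℤ) ∣ s i) → Bad b

/-- H4: one big and one middle component, all others even -/
def H_B : Prop := ∀ (M : Type) [AddCommGroup M] [Module.Finite ℤ M] (b : M → M → ℤ) (k : ℕ)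
  (C : Fin k → Set M) (s : Fin k → ℤ) (r : Fin k → ℕ) (i0 i1 : Fin k), PD b → Comps b C s r →
  13 ≤ ∑ i, r i → i0 ≠ i1 → Bg b (C i0) (s i0) → Md b (C i1) (s i1) (r i1) →
  (∀ i, i ≠ i0 → i ≠ i1 → (2 : ℤ) ∣ s i) → Bad b

/-- H5: three middle components, all others even -/
def H_C : Prop := ∀ (M : Type) [AddCommGroup M] [Module.Finite ℤ M] (b : M → M → ℤ) (k : ℕ)
  (C : Fin k → Set M) (s : Fin k → ℤ) (r : Fin k → ℕ) (i1 i2 i3 : Fin k), PD b →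
  Comps b C s r → 13 ≤ ∑ i, r i → i1 ≠ i2 → i1 ≠ i3 → i2 ≠ i3 →
  Md b (C i1) (s i1) (r i1) → Md b (C i2) (s i2) (r i2) → Md b (C i3) (s i3) (r i3) →
  (∀ i, i ≠ i1 → i ≠ i2 → i ≠ i3 → (2 : ℤ) ∣ s i) → Bad b

/-- H6: no big and at most two middle components: small rank modulo 2 -/
def H_I : Prop := ∀ (M : Type) [AddCommGroup M] (b : M → M → ℤ) (k : ℕ)
  (C : Fin k → Set M) (s : Fin k → ℤ) (r : Fin k → ℕ) (i1 i2 : Fin k), PD b → Comps b C s r →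
  (∀ i, ¬ Bg b (C i) (s i)) → (∀ i, i ≠ i1 → i ≠ i2 → ¬ Md b (C i) (s i) (r i)) →
  ¬ IndA b ⊤ 2 5

/-- E16: the theorem -/
def E_THM : Prop := ∀ (M : Type) [AddCommGroup M] [Module.Finite ℤ M] (b : M → M → ℤ), PD b →
  RGM b → (∃ c : Fin 13 → M, LinearIndependent ℤ c) → IndA b ⊤ 2 5 → Bad b

/-! ### Part U: Godement's criterion -/

/-- Γ is uniform (cocompact): hyperbolic space is covered by the translates of a bounded set -/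
def Uniform {n : ℕ} (Γ : Subgroup (V n ≃ₗ[ℝ] V n)) : Prop :=
  ∃ R : ℝ, ∀ v : V n, B v v = -1 → ∃ γ ∈ Γ, ∀ i, |γ v i| ≤ R

/-- U1: reduction theory: a bounded basis -/
def U_RED : Prop := ∀ (m : ℕ) (c D : ℝ), 0 < c → ∃ R : ℝ, ∀ (A : Type) [AddCommGroup A]
  (P : A → A → ℝ) (b : Module.Basis (Fin m) ℤ A),
  (∀ x y z, P (x + y) z = P x z + P y z) → (∀ x y, P x y = P y x) →
  (∀ K : ℝ, {x | P x x ≤ K}.Finite) → (∀ x, x ≠ 0 → c ≤ P x x) →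
  (Matrix.of fun i j => P (b i) (b j)).det ≤ D →
  ∃ b' : Module.Basis (Fin m) ℤ A, ∀ i, P (b' i) (b' i) ≤ R

/-- U2: an anisotropic form gives a uniform group -/
def U_GOD : Prop := ∀ (n : ℕ) (Γ : Subgroup (V n ≃ₗ[ℝ] V n)) (Λ : Submodule ℤ (V n)),
  IsIntegralLattice Λ → (∀ e ∈ Λ, B e e = 0 → e = 0) → Subgroup.Commensurable Γ (OLat Λ) →
  Uniform Γ

end Pool.Agent.CON

end
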